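import Pool.Agent.PPF.Stmts

/-!
# Module BMG: Gaussian moments of a coisometry
-/

set_option autoImplicit false

namespace PPF

open MeasureTheory Set Filter Topology
open PPI

namespace BMG_

/-- splitting off the first coordinate -/
noncomputable def φe (n : ℕ) : EE (n + 1) ≃ᵐ ℝ × EE n :=
  (MeasurableEquiv.toLp 2 (Fin (n + 1) → ℝ)).symm.trans
    ((MeasurableEquiv.piFinSuccAbove (fun _ : Fin (n + 1) => ℝ) 0).trans
      ((MeasurableEquiv.refl ℝ).prodCongr (MeasurableEquiv.toLp 2 (Fin n → ℝ))))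

theorem φe_fst (n : ℕ) (x : EE (n + 1)) : (φe n x).1 = x 0 := rfl

theorem φe_snd (n : ℕ) (x : EE (n + 1)) (j : Fin n) : (φe n x).2 j = x j.succ := by
  show x ((0 : Fin (n + 1)).succAbove j) = x j.succ
  rw [Fin.zero_succAbove]

theorem φe_mp (n : ℕ) : MeasurePreserving (φe n) volume volume := by
  have h1 := EuclideanSpace.volume_preserving_symm_measurableEquiv_toLp (Fin (n + 1))
  have h2 := volume_preserving_piFinSuccAbove (fun _ : Fin (n + 1) => ℝ) 0
  have h3 : MeasurePreserving (MeasurableEquiv.toLp 2 (Fin n → ℝ)) volume volume :=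
    PiLp.volume_preserving_toLp (Fin n)
  have h4 : MeasurePreserving ((MeasurableEquiv.refl ℝ).prodCongr
      (MeasurableEquiv.toLp 2 (Fin n → ℝ))) volume volume :=
    (MeasurePreserving.id (volume : Measure ℝ)).prod h3
  exact (h4.comp h2).comp h1

/-- the tail of a vector -/
noncomputable def tl (n : ℕ) : EE (n + 1) →ₗ[ℝ] EE n where
  toFun z := WithLp.toLp 2 fun j => z j.succ
  map_add' x y := by
    ext j
    simp
  map_smul' c x := by
    ext j
    simp

/-- adding a zero in front -/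
noncomputable def cs (n : ℕ) : EE n →ₗ[ℝ] EE (n + 1) where
  toFun y := WithLp.toLp 2 (Fin.cons 0 (fun j => y j) : Fin (n + 1) → ℝ)
  map_add' x y := by
    ext j
    refine Fin.cases ?_ (fun i => ?_) j
    · simp
    · simp
  map_smul' c x := by
    ext j
    refine Fin.cases ?_ (fun i => ?_) j
    · simp
    · simp

lemma tl_apply {n : ℕ} (z : EE (n + 1)) (j : Fin n) : tl n z j = z j.succ := rfl

lemma cs_zero {n : ℕ} (y : EE n) : cs n y 0 = 0 := rfl

lemma cs_succ {n : ℕ} (y : EE n) (j : Fin n) : cs n y j.succ = y j := rfl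

lemma inner_tl {n : ℕ} (z : EE (n + 1)) (y : EE n) :
    inner ℝ (tl n z) y = inner ℝ z (cs n y) := by
  rw [PiLp.inner_apply, PiLp.inner_apply, Fin.sum_univ_succ, cs_zero]
  simp only [cs_succ, tl_apply]
  simp

lemma φe_snd' {n : ℕ} (x : EE (n + 1)) : (φe n x).2 = tl n x := by
  ext j
  rw [φe_snd, tl_apply]

lemma split {n : ℕ} (z : EE (n + 1)) :
    z = z 0 • EuclideanSpace.single (0 : Fin (n + 1)) (1 : ℝ) + cs n (tl n z) := by
  ext j
  refine Fin.cases ?_ (fun i => ?_) j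
  · rw [PiLp.add_apply, PiLp.smul_apply, cs_zero]
    simp
  · rw [PiLp.add_apply, PiLp.smul_apply, cs_succ, tl_apply]
    simp

lemma norm_sq' {n : ℕ} (x : EE (n + 1)) : ‖x‖ ^ 2 = x 0 ^ 2 + ‖tl n x‖ ^ 2 := by
  rw [EuclideanSpace.norm_sq_eq, EuclideanSpace.norm_sq_eq, Fin.sum_univ_succ]
  simp only [tl_apply, Real.norm_eq_abs, sq_abs]

/-- the case `n = j` -/
lemma iso {n : ℕ} (A : EE n →L[ℝ] EE n) (hA : Coi A) (x : EE n) : ‖A x‖ = ‖x‖ := by
  have h1 : ∀ y, A (ContinuousLinearMap.adjoint A y) = y := fun y => by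
    have := congrArg (fun F : EE n →L[ℝ] EE n => F y) hA
    exact this
  have hinj : Function.Injective (ContinuousLinearMap.adjoint A : EE n →L[ℝ] EE n) := by
    intro y z hyz
    rw [← h1 y, ← h1 z, hyz]
  have hsurj : Function.Surjective
      ((ContinuousLinearMap.adjoint A : EE n →L[ℝ] EE n) : EE n →ₗ[ℝ] EE n) :=
    LinearMap.surjective_of_injective hinj
  obtain ⟨y, hy⟩ := hsurj x
  have hy' : ContinuousLinearMap.adjoint A y = x := hy
  have h2 : ContinuousLinearMap.adjoint A (A x) = x := by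
    rw [← hy', h1]
  have h3 : ‖A x‖ ^ 2 = ‖x‖ ^ 2 := by
    rw [← real_inner_self_eq_norm_sq, ← real_inner_self_eq_norm_sq,
      ← ContinuousLinearMap.adjoint_inner_left, h2]
  exact (sq_eq_sq₀ (norm_nonneg _) (norm_nonneg _)).1 h3

/-- the integral over `ℝ × EE n` -/
lemma fub {n j q : ℕ} (A' : EE n →L[ℝ] EE j) :
    ∫ x : EE (n + 1), ‖A' (tl n x)‖ ^ (2 * q) * Real.exp (-(‖x‖ ^ 2 / 2)) =
      √(2 * Real.pi) * ∫ y : EE n, ‖A' y‖ ^ (2 * q) * Real.exp (-(‖y‖ ^ 2 / 2)) := by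
  have h1 : ∀ x : EE (n + 1), ‖A' (tl n x)‖ ^ (2 * q) * Real.exp (-(‖x‖ ^ 2 / 2)) =
      (fun z : ℝ × EE n => Real.exp (-(1 / 2) * z.1 ^ 2) *
        (‖A' z.2‖ ^ (2 * q) * Real.exp (-(‖z.2‖ ^ 2 / 2)))) (φe n x) := by
    intro x
    have : Real.exp (-(‖x‖ ^ 2 / 2)) =
        Real.exp (-(1 / 2) * (x 0) ^ 2) * Real.exp (-(‖tl n x‖ ^ 2 / 2)) := by
      rw [← Real.exp_add, norm_sq']
      congr 1
      ring
    simp only []
    rw [φe_fst, φe_snd', this]
    ring
  simp_rw [h1]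
  rw [(φe_mp n).integral_comp' (fun z : ℝ × EE n => Real.exp (-(1 / 2) * z.1 ^ 2) *
        (‖A' z.2‖ ^ (2 * q) * Real.exp (-(‖z.2‖ ^ 2 / 2))))]
  have h2 : ∫ z : ℝ × EE n, Real.exp (-(1 / 2) * z.1 ^ 2) *
        (‖A' z.2‖ ^ (2 * q) * Real.exp (-(‖z.2‖ ^ 2 / 2))) =
      (∫ s : ℝ, Real.exp (-(1 / 2) * s ^ 2)) *
        ∫ y : EE n, (‖A' y‖ ^ (2 * q) * Real.exp (-(‖y‖ ^ 2 / 2))) := by
    rw [Measure.volume_eq_prod]
    exact integral_prod_mul (fun s : ℝ => Real.exp (-(1 / 2) * s ^ 2))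
      (fun y : EE n => ‖A' y‖ ^ (2 * q) * Real.exp (-(‖y‖ ^ 2 / 2)))
  rw [h2]
  have h3 : ∫ s : ℝ, Real.exp (-(1 / 2) * s ^ 2) = √(2 * Real.pi) := by
    rw [integral_gaussian]
    congr 1
    ring
  rw [h3]

/-- one step -/
lemma step {n j : ℕ} (hj : j ≤ n) (A : EE (n + 1) →L[ℝ] EE j) (hA : Coi A) :
    ∃ A' : EE n →L[ℝ] EE j, Coi A' ∧ ∀ q : ℕ,
      ∫ x : EE (n + 1), ‖A x‖ ^ (2 * q) * Real.exp (-(‖x‖ ^ 2 / 2)) =
        √(2 * Real.pi) * ∫ y : EE n, ‖A' y‖ ^ (2 * q) * Real.exp (-(‖y‖ ^ 2 / 2)) := by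
  have hker : LinearMap.ker (A : EE (n + 1) →ₗ[ℝ] EE j) ≠ ⊥ := by
    refine LinearMap.ker_ne_bot_of_finrank_lt ?_
    rw [finrank_euclideanSpace_fin, finrank_euclideanSpace_fin]
    omega
  obtain ⟨v, hv, hv0⟩ := Submodule.exists_mem_ne_zero_of_ne_bot hker
  have hv' : A v = 0 := hv
  have hpos : 0 < ‖v‖ := norm_pos_iff.mpr hv0
  set e : EE (n + 1) := EuclideanSpace.single 0 1 with he
  have he1 : ‖e‖ = 1 := by
    rw [he, EuclideanSpace.norm_single]; simp
  set u : EE (n + 1) := ‖v‖⁻¹ • v with hu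
  have hu1 : ‖u‖ = 1 := by
    rw [hu, norm_smul, norm_inv, norm_norm, inv_mul_cancel₀ hpos.ne']
  have hAu : A u = 0 := by
    rw [hu, map_smul, hv', smul_zero]
  let O : EE (n + 1) ≃ₗᵢ[ℝ] EE (n + 1) := (ℝ ∙ (e - u))ᗮ.reflection
  have hO : O e = u := Submodule.reflection_sub (he1.trans hu1.symm)
  have hOO : ∀ z, O (O z) = z := fun z => Submodule.reflection_reflection _ z
  let B : EE n →L[ℝ] EE (n + 1) :=
    LinearMap.toContinuousLinearMap (O.toLinearEquiv.toLinearMap ∘ₗ cs n)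
  let C : EE (n + 1) →L[ℝ] EE n :=
    LinearMap.toContinuousLinearMap (tl n ∘ₗ O.toLinearEquiv.toLinearMap)
  have hB : ∀ z, B z = O (cs n z) := fun z => rfl
  have hC : ∀ z, C z = tl n (O z) := fun z => rfl
  have hCB : C = ContinuousLinearMap.adjoint B := by
    rw [ContinuousLinearMap.eq_adjoint_iff]
    intro x z
    rw [hC, hB, inner_tl, ← O.inner_map_map x (O (cs n z)), hOO]
  have hBt : ∀ x : EE (n + 1), A (O x) = A (B (tl n x)) := by
    intro x
    have h := split x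
    calc A (O x) = A (O (x 0 • e + cs n (tl n x))) := by rw [he, ← h]
      _ = A (B (tl n x)) := by
        rw [map_add, map_smul, hO, map_add, map_smul, hAu, smul_zero, zero_add, hB]
  refine ⟨A.comp B, ?_, fun q => ?_⟩
  · unfold Coi
    rw [ContinuousLinearMap.adjoint_comp, ← hCB]
    ext y : 1
    have h1 : A (ContinuousLinearMap.adjoint A y) = y := by
      have := congrArg (fun F : EE j →L[ℝ] EE j => F y) hA
      exact this
    rw [ContinuousLinearMap.comp_apply, ContinuousLinearMap.comp_apply,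
      ContinuousLinearMap.comp_apply, hC, ← hBt, hOO, h1]
    rfl
  · have hf : MeasurePreserving (O.toMeasurableEquiv) volume volume := O.measurePreserving
    rw [← hf.integral_comp' (fun x : EE (n + 1) => ‖A x‖ ^ (2 * q) * Real.exp (-(‖x‖ ^ 2 / 2)))]
    rw [← fub (A.comp B)]
    refine integral_congr_ae (Filter.Eventually.of_forall fun x => ?_)
    have h1 : ∀ z, O.toMeasurableEquiv z = O z := fun z => rfl
    simp only [h1]
    rw [hBt, LinearIsometryEquiv.norm_map]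
    rfl

lemma main (n : ℕ) : ∀ (j q : ℕ) (A : EE n →L[ℝ] EE j), j ≤ n → Coi A →
    ∫ x : EE n, ‖A x‖ ^ (2 * q) * Real.exp (-(‖x‖ ^ 2 / 2)) =
      √(2 * Real.pi) ^ (n - j) * ga j q := by
  induction n with
  | zero =>
    intro j q A hj hA
    obtain rfl : j = 0 := by omega
    simp only [Nat.sub_self, pow_zero, one_mul]
    unfold ga
    simp only [iso A hA]
  | succ n ih =>
    intro j q A hj hA
    rcases Nat.lt_or_ge n j with h | h
    · obtain rfl : j = n + 1 := by omega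
      simp only [Nat.sub_self, pow_zero, one_mul]
      unfold ga
      simp only [iso A hA]
    · obtain ⟨A', hA', hq⟩ := step h A hA
      rw [hq q, ih j q A' h hA']
      have : n + 1 - j = (n - j) + 1 := by omega
      rw [this, pow_succ]
      ring

end BMG_

theorem bmg_proof : Stmt_BMG := by
  intro n j q A hj hA
  exact BMG_.main n j q A hj hA

end PPF

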