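import Pool.Agent.PPF.Stmts

/-!
# Squad PPF (MP_0bf616_gt), module BMO: moments of projections of the uniform distribution on the
ball
-/

set_option autoImplicit false

namespace PPF

open MeasureTheory Set Filter Topology
open PPI

theorem bmo_proof (h1 : Stmt_BMG) (h2 : Stmt_BMR) (h3 : PPI.Stmt_MGA) (h4 : PPI.Stmt_MCC)
    (h5 : PPI.Stmt_AVE) : Stmt_BMO := by
  intro n j q A hj hjn hA
  have hn : 1 ≤ n := le_trans hj hjn
  have hn0 : (0 : ℝ) < n := by exact_mod_cast hn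
  have hk : 0 < kap n := (h5 n hn).1
  have e0 : cc n q * ∫ x in Bn n, ‖A x‖ ^ (2 * q) =
      √(2 * Real.pi) ^ n * ∏ i ∈ Finset.range q, ((j : ℝ) + 2 * i) := by
    rw [← h2 n j q A hn, h1 n j q A hjn hA, h3 j q hj, ← mul_assoc, ← pow_add,
      Nat.sub_add_cancel hjn]
  have e1 := h4 n q hn
  have hS : 0 < √(2 * Real.pi) ^ n := by positivity
  have hP2 : 0 < ∏ i ∈ Finset.range q, ((n : ℝ) + 2 + 2 * i) :=
    Finset.prod_pos (fun i _ => by positivity)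
  have hcc : cc n q ≠ 0 := by
    intro h
    rw [h, zero_mul] at e1
    have : 0 < √(2 * Real.pi) ^ n * ∏ i ∈ Finset.range q, ((n : ℝ) + 2 + 2 * i) := by positivity
    linarith
  have e2 : (∫ x in Bn n, ‖A x‖ ^ (2 * q)) * ∏ i ∈ Finset.range q, ((n : ℝ) + 2 + 2 * i) =
      kap n * ∏ i ∈ Finset.range q, ((j : ℝ) + 2 * i) := by
    have h : cc n q * ((∫ x in Bn n, ‖A x‖ ^ (2 * q)) *
        ∏ i ∈ Finset.range q, ((n : ℝ) + 2 + 2 * i)) =
        cc n q * (kap n * ∏ i ∈ Finset.range q, ((j : ℝ) + 2 * i)) := by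
      rw [← mul_assoc, e0, ← mul_assoc, e1]
      ring
    exact mul_left_cancel₀ hcc h
  have e3 : ∏ i ∈ Finset.range q, ((j : ℝ) + 2 * i) ≤
      (((j : ℝ) + 2 * q) / n) ^ q * ∏ i ∈ Finset.range q, ((n : ℝ) + 2 + 2 * i) := by
    have h : (((j : ℝ) + 2 * q) / n) ^ q * ∏ i ∈ Finset.range q, ((n : ℝ) + 2 + 2 * i) =
        ∏ i ∈ Finset.range q, ((((j : ℝ) + 2 * q) / n) * ((n : ℝ) + 2 + 2 * i)) := by
      rw [Finset.prod_mul_distrib, Finset.prod_const, Finset.card_range]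
    rw [h]
    refine Finset.prod_le_prod (fun i _ => by positivity) (fun i hi => ?_)
    have hi' : (i : ℝ) ≤ q := by
      have := Finset.mem_range.1 hi
      exact_mod_cast this.le
    rw [div_mul_eq_mul_div, le_div_iff₀ hn0]
    have h6 : 0 ≤ (j : ℝ) := by positivity
    have h7 : 0 ≤ (i : ℝ) := by positivity
    nlinarith
  show (∫ x in Bn n, ‖A x‖ ^ (2 * q)) / kap n ≤ (((j : ℝ) + 2 * q) / n) ^ q
  rw [div_le_iff₀ hk]
  have h8 : (∫ x in Bn n, ‖A x‖ ^ (2 * q)) * ∏ i ∈ Finset.range q, ((n : ℝ) + 2 + 2 * i) ≤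
      ((((j : ℝ) + 2 * q) / n) ^ q * kap n) * ∏ i ∈ Finset.range q, ((n : ℝ) + 2 + 2 * i) := by
    rw [e2]
    calc kap n * ∏ i ∈ Finset.range q, ((j : ℝ) + 2 * i) ≤
        kap n * ((((j : ℝ) + 2 * q) / n) ^ q *
          ∏ i ∈ Finset.range q, ((n : ℝ) + 2 + 2 * i)) := by gcongr
      _ = _ := by ring
  exact le_of_mul_le_mul_right h8 hP2

end PPF
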