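import Pool.Agent.PPF.Stmts

/-!
# Squad PPF, module BMR: from the Gaussian measure to the ball
-/

set_option autoImplicit false

namespace PPF

open MeasureTheory Set Filter Topology
open PPI
open scoped ENNReal Pointwise

namespace BMR_

/-- kernel of the layer cake formula -/
noncomputable def hk (r s : ℝ) : ℝ := if 0 < s ∧ r ≤ s then s * Real.exp (-(s ^ 2 / 2)) else 0

lemma hk_nonneg (r s : ℝ) : 0 ≤ hk r s := by
  unfold hk
  split_ifs with h
  · exact mul_nonneg h.1.le (Real.exp_pos _).le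
  · exact le_rfl

lemma hk_meas : Measurable (fun p : ℝ × ℝ => hk p.1 p.2) := by
  unfold hk
  refine Measurable.ite ?_ ?_ measurable_const
  · exact (measurableSet_lt measurable_const measurable_snd).inter
      (measurableSet_le measurable_fst measurable_snd)
  · fun_prop

lemma deriv_aux (s : ℝ) :
    HasDerivAt (fun s : ℝ => -Real.exp (-(s ^ 2 / 2))) (s * Real.exp (-(s ^ 2 / 2))) s := by
  have h1 : HasDerivAt (fun s : ℝ => -(s ^ 2 / 2)) (-s) s := by
    have := ((hasDerivAt_pow 2 s).div_const 2).neg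
    refine this.congr_deriv ?_
    norm_num
  have h2 := h1.exp.neg
  refine h2.congr_deriv ?_
  ring

lemma tendsto_aux : Tendsto (fun s : ℝ => -Real.exp (-(s ^ 2 / 2))) atTop (𝓝 0) := by
  have h1 : Tendsto (fun s : ℝ => -(s ^ 2 / 2)) atTop atBot := by
    refine tendsto_neg_atTop_atBot.comp ?_
    exact (tendsto_pow_atTop (by norm_num)).atTop_div_const (by norm_num)
  have h2 := (Real.tendsto_exp_atBot.comp h1).neg
  simpa using h2

lemma hk_ae (r : ℝ) (hr : 0 ≤ r) :
    hk r =ᵐ[volume] (Ioi r).indicator (fun s => s * Real.exp (-(s ^ 2 / 2))) := by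
  have h0 : ∀ᵐ s : ℝ ∂volume, s ≠ r := by
    have := measure_singleton (μ := (volume : Measure ℝ)) r
    exact (compl_mem_ae_iff.mpr this)
  filter_upwards [h0] with s hs
  unfold hk
  rcases lt_or_ge r s with h | h
  · rw [if_pos ⟨lt_of_le_of_lt hr h, h.le⟩, indicator_of_mem (mem_Ioi.2 h)]
  · have h' : s < r := lt_of_le_of_ne h hs
    rw [if_neg (fun hh => absurd hh.2 (not_le.2 h')),
      indicator_of_notMem (fun hh => absurd (mem_Ioi.1 hh) (not_lt.2 h))]

lemma hk_int (r : ℝ) (hr : 0 ≤ r) :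
    Integrable (hk r) ∧ ∫ s, hk r s = Real.exp (-(r ^ 2 / 2)) := by
  have hpos : ∀ x ∈ Ioi r, 0 ≤ x * Real.exp (-(x ^ 2 / 2)) := fun x hx =>
    mul_nonneg (hr.trans (mem_Ioi.1 hx).le) (Real.exp_pos _).le
  have h1 := integrableOn_Ioi_deriv_of_nonneg' (fun x (_ : x ∈ Ici r) => deriv_aux x) hpos
    tendsto_aux
  have h2 := integral_Ioi_of_hasDerivAt_of_nonneg' (fun x (_ : x ∈ Ici r) => deriv_aux x) hpos
    tendsto_aux
  constructor
  · exact ((integrable_indicator_iff measurableSet_Ioi).2 h1).congr (hk_ae r hr).symm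
  · rw [integral_congr_ae (hk_ae r hr), integral_indicator measurableSet_Ioi, h2]
    ring

/-- the weight -/
noncomputable def wk (m : ℕ) (s : ℝ) : ℝ :=
  if 0 < s then s ^ (m + 1) * Real.exp (-(s ^ 2 / 2)) else 0

lemma wk_int (n q : ℕ) : ∫ s, wk (n + 2 * q) s = cc n q := by
  unfold cc
  rw [← integral_indicator measurableSet_Ioi]
  refine integral_congr_ae (Eventually.of_forall fun s => ?_)
  simp only [wk, indicator, mem_Ioi]

theorem int_one {n : ℕ} (hn : 0 < n) (m : ℕ) :
    Integrable (fun x : EE n => ‖x‖ ^ m * Real.exp (-(‖x‖ ^ 2 / 2))) := by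
  have : Nonempty (Fin n) := ⟨⟨0, hn⟩⟩
  have : Nontrivial (EE n) := inferInstance
  rw [integrable_fun_norm_addHaar (volume : Measure (EE n))
    (f := fun y : ℝ => y ^ m * Real.exp (-(y ^ 2 / 2)))]
  have h := integrableOn_rpow_mul_exp_neg_mul_sq (b := 1 / 2) (by norm_num)
    (s := ((Module.finrank ℝ (EE n) - 1 + m : ℕ) : ℝ))
    (by
      have : (0 : ℝ) ≤ ((Module.finrank ℝ (EE n) - 1 + m : ℕ) : ℝ) := Nat.cast_nonneg _
      linarith)
  refine h.congr_fun (fun y hy => ?_) measurableSet_Ioi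
  simp only [smul_eq_mul]
  rw [Real.rpow_natCast, pow_add, mul_assoc]
  congr 3
  ring_nf

lemma change {n : ℕ} (s : ℝ) (hs : 0 < s) (g : EE n → ℝ) :
    ∫ x, g x = s ^ n * ∫ y : EE n, g (s • y) := by
  have h := Measure.integral_comp_smul (volume : Measure (EE n)) g s
  rw [finrank_euclideanSpace, Fintype.card_fin, smul_eq_mul,
    abs_of_pos (inv_pos.2 (pow_pos hs n))] at h
  rw [h, ← mul_assoc, mul_inv_cancel₀ (pow_pos hs n).ne', one_mul]

lemma inner_eq (n j q : ℕ) (A : EE n →L[ℝ] EE j) (s : ℝ) :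
    ∫ x : EE n, ‖A x‖ ^ (2 * q) * hk ‖x‖ s =
      wk (n + 2 * q) s * ∫ x in Bn n, ‖A x‖ ^ (2 * q) := by
  by_cases hs : 0 < s
  · rw [change s hs]
    have hBm : MeasurableSet (Bn n) := by
      unfold Bn
      exact Metric.isClosed_closedBall.measurableSet
    rw [← integral_indicator hBm, ← integral_const_mul, ← integral_const_mul]
    refine integral_congr_ae (Eventually.of_forall fun y => ?_)
    simp only
    rw [map_smul, norm_smul, norm_smul, Real.norm_of_nonneg hs.le]
    have h2 : wk (n + 2 * q) s =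
        s ^ n * (s ^ (2 * q) * (s * Real.exp (-(s ^ 2 / 2)))) := by
      unfold wk
      rw [if_pos hs]
      ring
    by_cases hy : y ∈ Bn n
    · rw [indicator_of_mem hy]
      have hyk : ‖y‖ ≤ 1 := by simpa [Bn] using hy
      have h1 : hk (s * ‖y‖) s = s * Real.exp (-(s ^ 2 / 2)) := by
        unfold hk
        rw [if_pos]
        refine ⟨hs, ?_⟩
        nlinarith
      rw [h1, h2]
      ring
    · rw [indicator_of_notMem hy]
      have hyk : ¬ ‖y‖ ≤ 1 := by simpa [Bn] using hy
      have h1 : hk (s * ‖y‖) s = 0 := by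
        unfold hk
        rw [if_neg]
        rintro ⟨_, h⟩
        apply hyk
        by_contra hc
        push Not at hc
        nlinarith
      rw [h1]
      ring
  · have h1 : wk (n + 2 * q) s = 0 := by
      unfold wk
      rw [if_neg hs]
    have h2 : ∀ x : EE n, hk ‖x‖ s = 0 := by
      intro x
      unfold hk
      rw [if_neg (fun h => absurd h.1 hs)]
    rw [h1, zero_mul]
    simp only [h2, mul_zero, integral_zero]

lemma int_A (n j q : ℕ) (A : EE n →L[ℝ] EE j) (hn : 1 ≤ n) :
    Integrable (fun x : EE n => ‖A x‖ ^ (2 * q) * Real.exp (-(‖x‖ ^ 2 / 2))) := by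
  refine ((int_one hn (2 * q)).const_mul (‖A‖ ^ (2 * q))).mono' ?_ ?_
  · refine Continuous.aestronglyMeasurable ?_
    fun_prop
  · refine Filter.Eventually.of_forall fun x => ?_
    have hp : 0 ≤ Real.exp (-(‖x‖ ^ 2 / 2)) := (Real.exp_pos _).le
    rw [Real.norm_of_nonneg (by positivity), ← mul_assoc, ← mul_pow]
    exact mul_le_mul_of_nonneg_right (pow_le_pow_left₀ (norm_nonneg _) (A.le_opNorm x) _) hp

end BMR_

open BMR_

theorem bmr_proof : Stmt_BMR := by
  intro n j q A hn
  have hG : ∀ x : EE n, Real.exp (-(‖x‖ ^ 2 / 2)) = ∫ s, hk ‖x‖ s := fun x =>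
    (hk_int _ (norm_nonneg _)).2.symm
  have hmeas : Measurable (fun p : EE n × ℝ => ‖A p.1‖ ^ (2 * q) * hk ‖p.1‖ p.2) := by
    refine Measurable.mul ?_ ?_
    · fun_prop
    · have h2 : Measurable (fun p : EE n × ℝ => (‖p.1‖, p.2)) := by
        fun_prop
      exact hk_meas.comp h2
  have hI : Integrable (fun p : EE n × ℝ => ‖A p.1‖ ^ (2 * q) * hk ‖p.1‖ p.2)
      (volume.prod volume) := by
    rw [integrable_prod_iff hmeas.aestronglyMeasurable]
    constructor
    · refine Eventually.of_forall fun x => ?_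
      exact (hk_int _ (norm_nonneg _)).1.const_mul (‖A x‖ ^ (2 * q))
    · refine (int_A n j q A hn).congr (Eventually.of_forall fun x => ?_)
      simp only
      rw [hG, ← integral_const_mul]
      refine integral_congr_ae (Eventually.of_forall fun s => ?_)
      simp only
      rw [Real.norm_of_nonneg]
      exact mul_nonneg (by positivity) (hk_nonneg _ _)
  calc ∫ x : EE n, ‖A x‖ ^ (2 * q) * Real.exp (-(‖x‖ ^ 2 / 2)) =
          ∫ x : EE n, ∫ s : ℝ, ‖A x‖ ^ (2 * q) * hk ‖x‖ s := by
        refine integral_congr_ae (Eventually.of_forall fun x => ?_)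
        simp only
        rw [hG, integral_const_mul]
    _ = ∫ s : ℝ, ∫ x : EE n, ‖A x‖ ^ (2 * q) * hk ‖x‖ s := integral_integral_swap hI
    _ = ∫ s : ℝ, wk (n + 2 * q) s * ∫ x in Bn n, ‖A x‖ ^ (2 * q) := by
        refine integral_congr_ae (Eventually.of_forall fun s => ?_)
        exact inner_eq n j q A s
    _ = cc n q * ∫ x in Bn n, ‖A x‖ ^ (2 * q) := by
        rw [integral_mul_const, wk_int]

end PPF
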