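import Pool.Agent.PPF.Stmts

/-!
MP_0bf616_gt, squad PPF, module CAP: volume of a cap.
-/

set_option autoImplicit false

namespace PPF

open MeasureTheory Set Filter Topology
open PPI

theorem cap_proof : Stmt_CAP := by
  intro n y τ hn hy h0 h1
  have hr : 0 ≤ √(1 - τ ^ 2) := Real.sqrt_nonneg _
  have hsub : {x : EE n | x ∈ Bn n ∧ τ ≤ inner ℝ x y} ⊆
      Metric.closedBall (τ • y) (√(1 - τ ^ 2)) := by
    rintro x ⟨hx, hxy⟩
    have hx1 : ‖x‖ ≤ 1 := by
      unfold Bn at hx
      rwa [mem_closedBall_zero_iff] at hx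
    rw [mem_closedBall_iff_norm]
    refine Real.le_sqrt_of_sq_le ?_
    rw [norm_sub_sq_real, inner_smul_right, norm_smul, hy, mul_one, Real.norm_eq_abs, sq_abs]
    have h2 : ‖x‖ ^ 2 ≤ 1 := by
      have := norm_nonneg x
      nlinarith
    have h3 : τ * τ ≤ τ * inner ℝ x y := mul_le_mul_of_nonneg_left hxy h0
    nlinarith
  have hvol : volume (Metric.closedBall (τ • y) (√(1 - τ ^ 2))) =
      ENNReal.ofReal (√(1 - τ ^ 2) ^ n) * volume (Metric.closedBall (0 : EE n) 1) := by
    have h := Measure.addHaar_closedBall' (volume : Measure (EE n)) (τ • y) hr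
    rw [finrank_euclideanSpace_fin] at h
    exact h
  have hfin : volume (Metric.closedBall (τ • y) (√(1 - τ ^ 2))) ≠ ⊤ :=
    measure_closedBall_lt_top.ne
  unfold kap vl
  refine (ENNReal.toReal_mono hfin (measure_mono hsub)).trans ?_
  rw [hvol, ENNReal.toReal_mul, ENNReal.toReal_ofReal (pow_nonneg hr n)]
  rfl

end PPF
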