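import Pool.Agent.PPF.Stmts

/-!
# PPF module CBD: the barycentre of a cell which is not too small
-/

set_option autoImplicit false

namespace PPF

open MeasureTheory Set Filter Topology
open PPI

namespace CBD_

lemma cont_coord {n : ℕ} (i : Fin n) : Continuous fun x : EE n => x i :=
  (EuclideanSpace.proj (𝕜 := ℝ) i).continuous

lemma cont_inner {n : ℕ} (y : EE n) : Continuous fun x : EE n => inner ℝ x y :=
  continuous_id.inner continuous_const

lemma inner_eq {n : ℕ} (x y : EE n) : inner ℝ x y = ∑ k, y k * x k := by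
  rw [PiLp.inner_apply]
  refine Finset.sum_congr rfl fun k _ => ?_
  simp

lemma inner_cv (hAVE : PPI.Stmt_AVE) {n : ℕ} (hn : 1 ≤ n) {ι : Type} [Fintype ι] (ε : ℝ)
    (p : ι → ℝ) (w : ι → EE n) (T : Matrix (Fin n) (Fin n) ℝ) (b : ι → ℝ) (i : ι)
    (hws : Continuous fun x => ws ε w T b x i) (y : EE n) :
    inner ℝ (cv ε p w T b i) y = ave (fun x => ws ε w T b x i * inner ℝ x y) / p i := by
  obtain ⟨hk, hint, -⟩ := hAVE n hn
  rw [inner_eq]
  have h1 : ave (fun x => ws ε w T b x i * inner ℝ x y) =
      ∑ k, y k * ave (fun x : EE n => ws ε w T b x i * x k) := by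
    unfold ave
    have e : ∀ x : EE n, ws ε w T b x i * inner ℝ x y =
        ∑ k, y k * (ws ε w T b x i * x k) := by
      intro x
      rw [inner_eq, Finset.mul_sum]
      refine Finset.sum_congr rfl fun k _ => by ring
    simp only [e]
    rw [integral_finsetSum]
    · rw [Finset.sum_div]
      refine Finset.sum_congr rfl fun k _ => ?_
      rw [integral_const_mul, mul_div_assoc]
    · intro k _
      exact hint _ (continuous_const.mul (hws.mul (cont_coord k)))
  rw [h1, Finset.sum_div]
  refine Finset.sum_congr rfl fun k _ => ?_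
  show y k * (ave (fun x : EE n => ws ε w T b x i * x k) / p i) = _
  rw [mul_div_assoc]

end CBD_

open CBD_ in
theorem cbd_proof (hCAP : Stmt_CAP) (hAVE : PPI.Stmt_AVE) (hLSE : PPI.Stmt_LSE) : Stmt_CBD := by
  intro n ι _ _ ε p w T b τ i hn hε hp hav hτ0 hτ1
  obtain ⟨hk, hint, hadd, hcm, hconst, hmono, -, -⟩ := hAVE n hn
  obtain ⟨-, -, hws, -, hsum, hpos, -, -⟩ := hLSE n ι ε w T b hε
  have hpi := hp i
  have hwc := hws i
  have hw1 : ∀ x, ws ε w T b x i ≤ 1 := by
    intro x
    rw [← hsum x]
    exact Finset.single_le_sum (f := fun j => ws ε w T b x j) (fun j _ => (hpos x j).le)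
      (Finset.mem_univ i)
  set c := cv ε p w T b i with hc
  have hsq : 0 ≤ √(1 - τ ^ 2) ^ n / p i := by positivity
  by_cases hc0 : c = 0
  · rw [hc0, norm_zero]
    exact ⟨zero_le_one, by positivity⟩
  have hcn : 0 < ‖c‖ := norm_pos_iff.mpr hc0
  set y : EE n := ‖c‖⁻¹ • c with hy
  have hyn : ‖y‖ = 1 := by
    rw [hy, norm_smul, norm_inv, norm_norm, inv_mul_cancel₀ hcn.ne']
  have hin : inner ℝ c y = ‖c‖ := by
    rw [hy, inner_smul_right, real_inner_self_eq_norm_sq]
    field_simp
  have hcv := inner_cv hAVE hn ε p w T b i hwc y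
  rw [← hc, hin] at hcv
  have hxy : ∀ x ∈ Bn n, inner ℝ x y ≤ 1 := by
    intro x hx
    have h1 := real_inner_le_norm x y
    rw [hyn, mul_one] at h1
    have h2 : ‖x‖ ≤ 1 := by
      have := Metric.mem_closedBall.mp hx
      rwa [dist_zero_right] at this
    linarith
  constructor
  · have h1 : ave (fun x => ws ε w T b x i * inner ℝ x y) ≤ ave (fun x => ws ε w T b x i) := by
      refine hmono _ _ (hwc.mul (cont_inner y)) hwc ?_
      intro x hx
      have := mul_le_mul_of_nonneg_left (hxy x hx) (hpos x i).le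
      rwa [mul_one] at this
    rw [hav i] at h1
    rw [hcv, div_le_one hpi]
    exact h1
  · set S : Set (EE n) := {x : EE n | x ∈ Bn n ∧ τ ≤ inner ℝ x y} with hS
    have hcap := hCAP n y τ hn hyn hτ0 hτ1
    have hBm : MeasurableSet (Bn n) := Metric.isClosed_closedBall.measurableSet
    have hSm : MeasurableSet S := by
      refine hBm.inter ?_
      exact (isClosed_le continuous_const (cont_inner y)).measurableSet
    have hBfin : volume (Bn n) < ⊤ := (isCompact_closedBall (0 : EE n) 1).measure_lt_top
    have hindint : IntegrableOn (S.indicator (fun _ => (1 : ℝ))) (Bn n) := by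
      have h0 : IntegrableOn (fun _ : EE n => (1 : ℝ)) (Bn n) := integrableOn_const hBfin.ne
      exact h0.indicator hSm
    have hi0 : IntegrableOn (fun x => τ * ws ε w T b x i) (Bn n) :=
      hint _ (continuous_const.mul hwc)
    have h1 : ∫ x in Bn n, ws ε w T b x i * inner ℝ x y ≤
        ∫ x in Bn n, (τ * ws ε w T b x i + S.indicator (fun _ => (1 : ℝ)) x) := by
      refine setIntegral_mono_on (hint _ (hwc.mul (cont_inner y)))
        (hi0.add hindint) hBm ?_
      intro x hx
      by_cases hxS : x ∈ S
      · rw [Set.indicator_of_mem hxS]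
        have h2 := mul_le_mul_of_nonneg_left (hxy x hx) (hpos x i).le
        have h3 := hw1 x
        have h4 := mul_nonneg hτ0 (hpos x i).le
        linarith
      · rw [Set.indicator_of_notMem hxS, add_zero]
        have h2 : inner ℝ x y ≤ τ := by
          by_contra hcon
          exact hxS ⟨hx, (not_le.mp hcon).le⟩
        have := mul_le_mul_of_nonneg_left h2 (hpos x i).le
        linarith
    have h1' : ∫ x in Bn n, (τ * ws ε w T b x i + S.indicator (fun _ => (1 : ℝ)) x) =
        (∫ x in Bn n, τ * ws ε w T b x i) + ∫ x in Bn n, S.indicator (fun _ => (1 : ℝ)) x :=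
      integral_add hi0 hindint
    rw [h1', integral_const_mul] at h1
    have h2 : ∫ x in Bn n, S.indicator (fun _ => (1 : ℝ)) x = vl S := by
      rw [setIntegral_indicator hSm, setIntegral_const, smul_eq_mul, mul_one]
      have : Bn n ∩ S = S := Set.inter_eq_self_of_subset_right (fun x hx => hx.1)
      rw [this]
      rfl
    have h3 : ∫ x in Bn n, ws ε w T b x i = p i * kap n := by
      have := hav i
      unfold ave at this
      rw [div_eq_iff hk.ne'] at this
      exact this
    rw [h2, h3] at h1
    have h4 : ave (fun x => ws ε w T b x i * inner ℝ x y) ≤ τ * p i + √(1 - τ ^ 2) ^ n := by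
      unfold ave
      rw [div_le_iff₀ hk]
      have : vl S ≤ √(1 - τ ^ 2) ^ n * kap n := hcap
      nlinarith
    rw [hcv, div_le_iff₀ hpi, add_mul, div_mul_cancel₀ _ hpi.ne']
    exact h4

end PPF
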