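import Pool.Agent.PPF.Stmts

/-!
# Squad PPF, module DMO: moments of the determinant of independent rows
-/

set_option autoImplicit false

namespace PPF

open MeasureTheory Set Filter Topology
open PPI

namespace DMO_

theorem coi_id (n : ℕ) : Coi (ContinuousLinearMap.id ℝ (EE n)) := by
  unfold Coi
  rw [ContinuousLinearMap.id_comp]
  symm
  rw [ContinuousLinearMap.eq_adjoint_iff]
  intro x y
  simp

theorem coi_comp {n m j : ℕ} (A : EE n →L[ℝ] EE m) (B : EE m →L[ℝ] EE j) (hA : Coi A)
    (hB : Coi B) : Coi (B.comp A) := by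
  unfold Coi at *
  rw [ContinuousLinearMap.adjoint_comp]
  have h1 : (B.comp A).comp
      ((ContinuousLinearMap.adjoint A).comp (ContinuousLinearMap.adjoint B)) =
      (B.comp (A.comp (ContinuousLinearMap.adjoint A))).comp (ContinuousLinearMap.adjoint B) := by
    ext x
    simp
  rw [h1, hA]
  simpa using hB

/-- sums over the first index -/
theorem dm_succ {n q : ℕ} {ι : Type} [Fintype ι] (p : ι → ℝ) (c : ι → EE (n + 1)) :
    DM q p c = ∑ i, p i * ∑ f : Fin n → ι, (∏ k, p (f k)) *
      dt (Fin.cons (c i) (fun k => c (f k)) : Fin (n + 1) → EE (n + 1)) ^ (2 * q) := by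
  unfold DM
  have h : ∑ f : Fin (n + 1) → ι, (∏ k, p (f k)) * dt (fun k => c (f k)) ^ (2 * q) =
      ∑ x : ι × (Fin n → ι), (∏ k, p ((Fin.cons x.1 x.2 : Fin (n + 1) → ι) k)) *
        dt (fun k => c ((Fin.cons x.1 x.2 : Fin (n + 1) → ι) k)) ^ (2 * q) := by
    symm
    apply Fintype.sum_equiv (Fin.consEquiv (fun _ => ι))
    intro x
    rfl
  rw [h, Fintype.sum_prod_type]
  refine Finset.sum_congr rfl fun i _ => ?_
  rw [Finset.mul_sum]
  refine Finset.sum_congr rfl fun f _ => ?_
  rw [Fin.prod_univ_succ]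
  simp only [Fin.cons_zero, Fin.cons_succ]
  have h2 : (fun k => c ((Fin.cons i f : Fin (n + 1) → ι) k)) =
      (Fin.cons (c i) (fun k => c (f k)) : Fin (n + 1) → EE (n + 1)) := by
    funext k
    refine Fin.cases ?_ (fun k => ?_) k
    · simp
    · simp
  rw [h2]
  ring

theorem dt_cons_zero {n : ℕ} (z : Fin n → EE (n + 1)) :
    dt (Fin.cons (0 : EE (n + 1)) z : Fin (n + 1) → EE (n + 1)) = 0 := by
  unfold dt
  apply Matrix.det_eq_zero_of_row_eq_zero (0 : Fin (n + 1))
  intro j
  simp

end DMO_

open DMO_ in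
theorem dmo_proof (hROT : Stmt_ROT) : Stmt_DMO := by
  intro n
  induction n with
  | zero =>
    intro q ι _ p c M hq hp hM h
    unfold DM
    simp [dt]
  | succ n ih =>
    intro q ι _ p c M hq hp hM h
    rw [dm_succ, Finset.prod_range_succ]
    have hP : 0 ≤ ∏ j ∈ Finset.range n, M (j + 1) := Finset.prod_nonneg fun j _ => hM _
    have key : ∀ i, ∑ f : Fin n → ι, (∏ k, p (f k)) *
        dt (Fin.cons (c i) (fun k => c (f k)) : Fin (n + 1) → EE (n + 1)) ^ (2 * q) ≤
        ‖c i‖ ^ (2 * q) * ∏ j ∈ Finset.range n, M (j + 1) := by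
      intro i
      by_cases hc : c i = 0
      · rw [hc]
        have h0 : ∀ f : Fin n → ι, (∏ k, p (f k)) *
            dt (Fin.cons (0 : EE (n + 1)) (fun k => c (f k)) : Fin (n + 1) → EE (n + 1)) ^ (2 * q)
              = 0 := by
          intro f
          rw [dt_cons_zero, zero_pow (by omega), mul_zero]
        rw [Finset.sum_congr rfl fun f _ => h0 f]
        simp only [Finset.sum_const_zero]
        positivity
      · obtain ⟨A, hA, hd⟩ := hROT n (c i) hc
        have h1 : ∀ f : Fin n → ι, (∏ k, p (f k)) *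
            dt (Fin.cons (c i) (fun k => c (f k)) : Fin (n + 1) → EE (n + 1)) ^ (2 * q) =
            ‖c i‖ ^ (2 * q) * ((∏ k, p (f k)) * dt (fun k => A (c (f k))) ^ (2 * q)) := by
          intro f
          have he : Even (2 * q) := even_two_mul q
          rw [← he.pow_abs, hd, mul_pow, he.pow_abs]
          ring
        rw [Finset.sum_congr rfl fun f _ => h1 f, ← Finset.mul_sum]
        apply mul_le_mul_of_nonneg_left _ (by positivity)
        have := ih q ι p (fun i => A (c i)) M hq hp hM (by
          intro j hj hjn B hB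
          have := h j hj (by omega) (B.comp A) (coi_comp A B hA hB)
          simpa using this)
        unfold DM at this
        exact this
    calc ∑ i, p i * ∑ f : Fin n → ι, (∏ k, p (f k)) *
          dt (Fin.cons (c i) (fun k => c (f k)) : Fin (n + 1) → EE (n + 1)) ^ (2 * q)
        ≤ ∑ i, p i * (‖c i‖ ^ (2 * q) * ∏ j ∈ Finset.range n, M (j + 1)) :=
          Finset.sum_le_sum fun i _ => mul_le_mul_of_nonneg_left (key i) (hp i)
      _ = (∏ j ∈ Finset.range n, M (j + 1)) * ∑ i, p i * ‖c i‖ ^ (2 * q) := by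
          rw [Finset.mul_sum]
          refine Finset.sum_congr rfl fun i _ => ?_
          ring
      _ ≤ (∏ j ∈ Finset.range n, M (j + 1)) * M (n + 1) := by
          apply mul_le_mul_of_nonneg_left _ hP
          have := h (n + 1) (by omega) le_rfl (ContinuousLinearMap.id ℝ (EE (n + 1))) (coi_id _)
          simpa using this

end PPF
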