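import Pool.Agent.PPF.Stmts

/-!
# PPF, module FIN (assembly): the theorem
-/

set_option autoImplicit false

namespace PPF

open MeasureTheory Set
open PPI

theorem fin_proof (hMON : PPI.Stmt_MON) (hNUA : PPI.Stmt_NUA) (hAVE : PPI.Stmt_AVE)
    (hPTP : Stmt_PTP) (hPOL : Stmt_POL) (hNUE : Stmt_NUE) : Stmt_FIN := by
  intro c hc
  obtain ⟨n₀, hn₀⟩ := hNUE c hc
  refine ⟨max n₀ 2, fun n hn N v b hN hK hint => ?_⟩
  have hn2 : 2 ≤ n := le_trans (le_max_right _ _) hn
  have hn1 : 1 ≤ n := by omega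
  have hnR : (0 : ℝ) < n := by exact_mod_cast hn1
  obtain ⟨q, τ, p₀, θ, hq, h0, h1, hp0, hθ, hMB, hlt⟩ :=
    hn₀ n (le_trans (le_max_left _ _) hn) N hN
  obtain ⟨v', z, hKz⟩ := hPOL n N v b hint
  obtain ⟨-, -, htrans⟩ := hMON n hn2
  have hkap : 0 < kap n := (hAVE n hn1).1
  set K : Set (EE n) := {x : EE n | ∀ i, inner ℝ (v i) x ≤ b i} with hKdef
  have hvKpos : 0 < vl K := by
    unfold vl
    apply ENNReal.toReal_pos
    · have h1 : 0 < volume (interior K) := isOpen_interior.measure_pos volume hint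
      exact (h1.trans_le (measure_mono interior_subset)).ne'
    · exact hK.measure_lt_top.ne
  have hPimg : Pol v' = (fun x => x + (-z)) '' K := by
    rw [hKz, Set.image_image]
    simp
  have hPc : IsCompact (Pol v') := by
    rw [hPimg]
    exact hK.image (by fun_prop)
  have hvol : vl (Pol v') = vl K := by
    unfold vl
    congr 1
    rw [hPimg, Set.image_add_right]
    exact measure_preimage_add_right _ _ _
  have hproj : projBody (Pol v') = projBody K := by
    rw [hKz]
    exact (htrans (Pol v') z).symm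
  have hP := hPTP n q N v' τ p₀ θ hn2 hq hPc (by rw [hvol]; exact hvKpos) h0 h1 hp0 hθ hMB
  rw [hvol, hproj] at hP
  have hV : 0 < vl K ^ (n - 1) := by positivity
  have hPi : 0 < vl (projBody K) := by
    have : 0 < 8 * Real.exp 1 * (n + 1) * θ * vl (projBody K) :=
      lt_of_lt_of_le (by positivity) hP
    by_contra hcon
    push Not at hcon
    have h2 : 8 * Real.exp 1 * (n + 1) * θ * vl (projBody K) ≤ 0 :=
      mul_nonpos_of_nonneg_of_nonpos (by positivity) hcon
    linarith
  have hA := hNUA n hn2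
  calc kap (n - 1) ^ n / kap n ^ (n - 2) * vl K ^ (n - 1)
      ≤ √(Real.exp 1) * kap n * √((n : ℝ) ^ n / n.factorial) * vl K ^ (n - 1) :=
        mul_le_mul_of_nonneg_right hA hV.le
    _ = √(Real.exp 1) * √((n : ℝ) ^ n / n.factorial) * (kap n * vl K ^ (n - 1)) := by ring
    _ ≤ √(Real.exp 1) * √((n : ℝ) ^ n / n.factorial) *
        (8 * Real.exp 1 * (n + 1) * θ * vl (projBody K)) :=
        mul_le_mul_of_nonneg_left hP (by positivity)
    _ = (√(Real.exp 1) * √((n : ℝ) ^ n / n.factorial) * (8 * Real.exp 1 * (n + 1) * θ)) *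
        vl (projBody K) := by ring
    _ < 1 * vl (projBody K) := mul_lt_mul_of_pos_right hlt hPi
    _ = vl (projBody K) := one_mul _

end PPF
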