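import Pool.Agent.PPF.Stmts

set_option autoImplicit false

namespace PPF

open MeasureTheory Set Filter Topology
open PPI

namespace GMC_

/-- finite sums of averages -/
lemma ave_sum' {n : ℕ} (h1 : PPI.Stmt_AVE) (hn : 1 ≤ n) {κ : Type} (s : Finset κ)
    (f : κ → EE n → ℝ) (hf : ∀ i, Continuous (f i)) :
    ave (fun x => ∑ i ∈ s, f i x) = ∑ i ∈ s, ave (f i) := by
  classical
  obtain ⟨-, -, hadd, hmul, hconst, -⟩ := h1 n hn
  induction s using Finset.induction_on with
  | empty => simpa using hconst 0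
  | insert i s hi ih =>
    rw [Finset.sum_insert hi, ← ih, ← hadd (f i) (fun x => ∑ j ∈ s, f j x) (hf i)
      (continuous_finsetSum _ fun j _ => hf j)]
    congr 1
    funext x
    rw [Finset.sum_insert hi]

end GMC_

theorem gmc_proof (h1 : PPI.Stmt_AVE) (h2 : PPI.Stmt_LSE) : Stmt_GMC := by
  intro n ι _ _ ε p w T b hn hε hp
  obtain ⟨-, -, hwsc, -⟩ := h2 n ι ε w T b hε
  obtain ⟨-, -, -, hmul, -, -⟩ := h1 n hn
  have hco : ∀ k : Fin n, Continuous (fun x : EE n => x k) := fun k => by fun_prop
  unfold Gm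
  ext k l
  rw [Matrix.of_apply, Matrix.of_apply,
    GMC_.ave_sum' h1 hn Finset.univ (fun i x => ws ε w T b x i * (x k * w i l))
      (fun i => (hwsc i).mul ((hco k).mul continuous_const))]
  refine Finset.sum_congr rfl fun i _ => ?_
  have e : (fun x : EE n => ws ε w T b x i * (x k * w i l)) =
      fun x => w i l * (ws ε w T b x i * x k) := by
    funext x
    ring
  have hcv : cv ε p w T b i k = ave (fun x : EE n => ws ε w T b x i * x k) / p i := rfl
  rw [e, hmul, hcv]
  have := (hp i).ne'
  field_simp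

end PPF
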