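import Pool.Agent.PPF.Stmts

set_option autoImplicit false

namespace PPF

open MeasureTheory Set Filter Topology
open PPI

namespace JEN_

variable {n : ℕ}

/-- finite sums of averages -/
lemma ave_sum (h1 : PPI.Stmt_AVE) (hn : 1 ≤ n) {κ : Type} (s : Finset κ) (f : κ → EE n → ℝ)
    (hf : ∀ i, Continuous (f i)) :
    ave (fun x => ∑ i ∈ s, f i x) = ∑ i ∈ s, ave (f i) := by
  classical
  obtain ⟨-, -, hadd, hmul, hconst, -⟩ := h1 n hn
  induction s using Finset.induction_on with
  | empty => simpa using hconst 0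
  | insert i s hi ih =>
    rw [Finset.sum_insert hi, ← ih, ← hadd (f i) (fun x => ∑ j ∈ s, f j x) (hf i)
      (continuous_finsetSum _ fun j _ => hf j)]
    congr 1
    funext x
    rw [Finset.sum_insert hi]

lemma lin {j : ℕ} (A : EE n →L[ℝ] EE j) (y : EE j) (x : EE n) :
    inner ℝ y (A x) = ∑ k, x k * inner ℝ y (A (EuclideanSpace.single k (1 : ℝ))) := by
  have h := (EuclideanSpace.basisFun (Fin n) ℝ).sum_repr x
  have h2 : A x = ∑ k, x k • A (EuclideanSpace.single k (1 : ℝ)) := by
    calc A x = A (∑ k, (EuclideanSpace.basisFun (Fin n) ℝ).repr x k •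
          (EuclideanSpace.basisFun (Fin n) ℝ) k) := by rw [h]
      _ = _ := by
          rw [map_sum]
          refine Finset.sum_congr rfl fun k _ => ?_
          rw [map_smul]
          simp
  rw [h2, inner_sum]
  refine Finset.sum_congr rfl fun k _ => ?_
  rw [inner_smul_right]

lemma tangent (q : ℕ) (s t : ℝ) (hs : 0 < s) (ht : 0 ≤ t) :
    s ^ (2 * q) + (2 * q : ℕ) * s ^ (2 * q) * (t / s - 1) ≤ t ^ (2 * q) := by
  have h1 : (-2 : ℝ) ≤ t / s - 1 := by
    have : 0 ≤ t / s := div_nonneg ht hs.le
    linarith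
  have h2 := one_add_mul_le_pow h1 (2 * q)
  have h3 : t ^ (2 * q) = s ^ (2 * q) * (1 + (t / s - 1)) ^ (2 * q) := by
    rw [← mul_pow]
    congr 1
    field_simp
    ring
  rw [h3]
  have h4 : 0 ≤ s ^ (2 * q) := by positivity
  have h5 := mul_le_mul_of_nonneg_left h2 h4
  calc s ^ (2 * q) + (2 * q : ℕ) * s ^ (2 * q) * (t / s - 1)
      = s ^ (2 * q) * (1 + (2 * q : ℕ) * (t / s - 1)) := by ring
    _ ≤ _ := h5

end JEN_

open JEN_ in
theorem jen_proof (hAVE : PPI.Stmt_AVE) (hLSE : PPI.Stmt_LSE) : Stmt_JEN := by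
  intro n j q ι _ _ ε p w T b A hn hq hε hp hws
  obtain ⟨-, -, hwsc, -, hws1, hwspos, -, -⟩ := hLSE n ι ε w T b hε
  obtain ⟨-, -, hadd, hmul, hconst, hmono, -⟩ := hAVE n hn
  have hAc : Continuous fun x : EE n => ‖A x‖ ^ (2 * q) := by fun_prop
  -- single cell
  have key : ∀ i, p i * ‖A (cv ε p w T b i)‖ ^ (2 * q) ≤
      ave (fun x => ws ε w T b x i * ‖A x‖ ^ (2 * q)) := by
    intro i
    set y := A (cv ε p w T b i) with hy
    by_cases hs : y = 0
    · have h0 : ‖y‖ = 0 := by rw [hs, norm_zero]
      rw [h0, zero_pow (by omega), mul_zero]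
      have h := hmono (fun _ => (0 : ℝ)) (fun x => ws ε w T b x i * ‖A x‖ ^ (2 * q))
        continuous_const ((hwsc i).mul hAc)
        (fun x _ => mul_nonneg (hwspos x i).le (by positivity))
      rw [hconst] at h
      exact h
    · have hs0 : 0 < ‖y‖ := norm_pos_iff.mpr hs
      set s := ‖y‖ with hsdef
      have hlin : ave (fun x => ws ε w T b x i * inner ℝ y (A x)) = p i * s ^ 2 := by
        have e1 : (fun x : EE n => ws ε w T b x i * inner ℝ y (A x)) =
            fun x => ∑ k, inner ℝ y (A (EuclideanSpace.single k (1 : ℝ))) *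
              (ws ε w T b x i * x k) := by
          funext x
          rw [lin A y x, Finset.mul_sum]
          refine Finset.sum_congr rfl fun k _ => ?_
          ring
        have hc : ∀ k : Fin n, Continuous fun x : EE n => ws ε w T b x i * x k := by
          intro k
          exact (hwsc i).mul (by fun_prop)
        rw [e1, ave_sum hAVE hn Finset.univ
          (fun k x => inner ℝ y (A (EuclideanSpace.single k (1 : ℝ))) * (ws ε w T b x i * x k))
          (fun k => continuous_const.mul (hc k))]
        have e2 : ∀ k, ave (fun x : EE n => inner ℝ y (A (EuclideanSpace.single k (1 : ℝ))) *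
            (ws ε w T b x i * x k)) =
            p i * (cv ε p w T b i k * inner ℝ y (A (EuclideanSpace.single k (1 : ℝ)))) := by
          intro k
          rw [hmul]
          have e3 : cv ε p w T b i k = ave (fun x : EE n => ws ε w T b x i * x k) / p i := rfl
          rw [e3]
          have := (hp i).ne'
          field_simp
        simp_rw [e2]
        rw [← Finset.mul_sum, ← lin A y (cv ε p w T b i), ← hy, real_inner_self_eq_norm_sq]
      have hpt : ∀ x : EE n,
          (s ^ (2 * q) - (2 * q : ℕ) * s ^ (2 * q)) * ws ε w T b x i +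
            ((2 * q : ℕ) * s ^ (2 * q) / s ^ 2) * (ws ε w T b x i * inner ℝ y (A x)) ≤
          ws ε w T b x i * ‖A x‖ ^ (2 * q) := by
        intro x
        have h1 := tangent q s ‖A x‖ hs0 (norm_nonneg _)
        have h2 : inner ℝ y (A x) / s ≤ ‖A x‖ := by
          rw [div_le_iff₀ hs0]
          have := real_inner_le_norm y (A x)
          linarith [mul_comm ‖y‖ ‖A x‖]
        have h3 : s ^ (2 * q) + (2 * q : ℕ) * s ^ (2 * q) * (inner ℝ y (A x) / s / s - 1) ≤
            ‖A x‖ ^ (2 * q) := by
          refine le_trans ?_ h1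
          have h4 : inner ℝ y (A x) / s / s ≤ ‖A x‖ / s := by gcongr
          have h5 : (0 : ℝ) ≤ (2 * q : ℕ) * s ^ (2 * q) := by positivity
          have h6 := mul_le_mul_of_nonneg_left (sub_le_sub_right h4 1) h5
          linarith
        have h7 := mul_le_mul_of_nonneg_left h3 (hwspos x i).le
        refine le_trans (le_of_eq ?_) h7
        field_simp
        ring
      have hcL : Continuous fun x : EE n =>
          (s ^ (2 * q) - (2 * q : ℕ) * s ^ (2 * q)) * ws ε w T b x i :=
        continuous_const.mul (hwsc i)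
      have hcR : Continuous fun x : EE n =>
          ((2 * q : ℕ) * s ^ (2 * q) / s ^ 2) * (ws ε w T b x i * inner ℝ y (A x)) :=
        continuous_const.mul ((hwsc i).mul (by fun_prop))
      have h := hmono (fun x => (s ^ (2 * q) - (2 * q : ℕ) * s ^ (2 * q)) * ws ε w T b x i +
        ((2 * q : ℕ) * s ^ (2 * q) / s ^ 2) * (ws ε w T b x i * inner ℝ y (A x)))
        (fun x => ws ε w T b x i * ‖A x‖ ^ (2 * q)) (hcL.add hcR)
        ((hwsc i).mul hAc) (fun x _ => hpt x)
      rw [hadd _ _ hcL hcR, hmul, hmul, hlin, hws i] at h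
      refine le_trans (le_of_eq ?_) h
      field_simp
      ring
  calc ∑ i, p i * ‖A (cv ε p w T b i)‖ ^ (2 * q)
      ≤ ∑ i, ave (fun x => ws ε w T b x i * ‖A x‖ ^ (2 * q)) :=
        Finset.sum_le_sum fun i _ => key i
    _ = ave (fun x => ∑ i, ws ε w T b x i * ‖A x‖ ^ (2 * q)) :=
        (ave_sum hAVE hn Finset.univ (fun i x => ws ε w T b x i * ‖A x‖ ^ (2 * q))
          (fun i => (hwsc i).mul hAc)).symm
    _ = ave (fun x => ‖A x‖ ^ (2 * q)) := by
        congr 1
        funext x
        rw [← Finset.sum_mul, hws1, one_mul]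

end PPF
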