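import Pool.Agent.PPF.Stmts

/-!
# PPF module MOC: the moments of the determinant of the barycentres
-/

set_option autoImplicit false

namespace PPF

open MeasureTheory Set Filter Topology
open PPI

namespace MOC_

/-- a coisometry does not increase the norm -/
lemma coi_norm_le {n j : ℕ} (A : EE n →L[ℝ] EE j) (hA : Coi A) (x : EE n) : ‖A x‖ ≤ ‖x‖ := by
  have hB : ∀ y : EE j, ‖ContinuousLinearMap.adjoint A y‖ = ‖y‖ := by
    intro y
    have h1 : A (ContinuousLinearMap.adjoint A y) = y := by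
      have := congrArg (fun f : EE j →L[ℝ] EE j => f y) hA
      simpa using this
    have h2 : inner ℝ (ContinuousLinearMap.adjoint A y) (ContinuousLinearMap.adjoint A y) =
        inner ℝ y y := by
      rw [ContinuousLinearMap.adjoint_inner_left, h1]
    rw [real_inner_self_eq_norm_sq, real_inner_self_eq_norm_sq] at h2
    have h3 := (sq_eq_sq₀ (norm_nonneg _) (norm_nonneg _)).1 h2
    exact h3
  have h4 : inner ℝ (A x) (A x) = inner ℝ (ContinuousLinearMap.adjoint A (A x)) x := by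
    rw [ContinuousLinearMap.adjoint_inner_left]
  have h5 : ‖A x‖ * ‖A x‖ ≤ ‖A x‖ * ‖x‖ := by
    calc ‖A x‖ * ‖A x‖ = inner ℝ (A x) (A x) := by
          rw [real_inner_self_eq_norm_mul_norm]
      _ = inner ℝ (ContinuousLinearMap.adjoint A (A x)) x := h4
      _ ≤ ‖ContinuousLinearMap.adjoint A (A x)‖ * ‖x‖ := real_inner_le_norm _ _
      _ = ‖A x‖ * ‖x‖ := by rw [hB]
  by_cases h0 : ‖A x‖ = 0
  · rw [h0]; exact norm_nonneg _
  · have hpos : 0 < ‖A x‖ := lt_of_le_of_ne (norm_nonneg _) (Ne.symm h0)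
    exact le_of_mul_le_mul_left h5 hpos

lemma rb_nonneg (n q N : ℕ) (τ p₀ : ℝ) (hp0 : 0 < p₀) : 0 ≤ RB n q N τ p₀ := by
  unfold RB
  have h1 : 0 ≤ (τ + √(1 - τ ^ 2) ^ n / p₀) ^ (2 * q) := by
    rw [pow_mul]; exact pow_nonneg (sq_nonneg _) _
  have h2 : (0 : ℝ) ≤ (N : ℝ) * p₀ := mul_nonneg (Nat.cast_nonneg _) hp0.le
  linarith

end MOC_

open MOC_ in
theorem moc_proof (h1 : Stmt_DMO) (h2 : Stmt_JEN) (h3 : Stmt_BMO) (h4 : Stmt_CBD) : Stmt_MOC := by
  intro n q ι _ _ ε p w T b τ p₀ hn hq hε hp hsum hav hτ0 hτ1 hp0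
  have hR : 0 ≤ RB n q (Fintype.card ι) τ p₀ := rb_nonneg _ _ _ _ _ hp0
  have key := h1 n q ι p (cv ε p w T b)
    (fun j => min (RB n q (Fintype.card ι) τ p₀) ((((j : ℝ) + 2 * q) / n) ^ q)) hq
    (fun i => (hp i).le)
    (fun j => le_min hR (by positivity))
    (by
      intro j hj1 hjn A hA
      refine le_min ?_ ?_
      · -- first bound
        have hterm : ∀ i, p i * ‖A (cv ε p w T b i)‖ ^ (2 * q) ≤
            p i * (τ + √(1 - τ ^ 2) ^ n / p₀) ^ (2 * q) + p₀ := by
          intro i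
          obtain ⟨hc1, hc2⟩ := h4 n ι ε p w T b τ i hn hε hp hav hτ0 hτ1
          have hAle := coi_norm_le A hA (cv ε p w T b i)
          have hpi := hp i
          have hs : 0 ≤ √(1 - τ ^ 2) ^ n := pow_nonneg (Real.sqrt_nonneg _) _
          have hρ0 : 0 ≤ τ + √(1 - τ ^ 2) ^ n / p₀ := by positivity
          by_cases hcase : p₀ ≤ p i
          · have hle : √(1 - τ ^ 2) ^ n / p i ≤ √(1 - τ ^ 2) ^ n / p₀ :=
              div_le_div_of_nonneg_left hs hp0 hcase
            have hb : ‖A (cv ε p w T b i)‖ ≤ τ + √(1 - τ ^ 2) ^ n / p₀ := by linarith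
            have hpow := pow_le_pow_left₀ (norm_nonneg _) hb (2 * q)
            have := mul_le_mul_of_nonneg_left hpow hpi.le
            linarith
          · have hb : ‖A (cv ε p w T b i)‖ ≤ 1 := le_trans hAle hc1
            have hpow : ‖A (cv ε p w T b i)‖ ^ (2 * q) ≤ 1 :=
              pow_le_one₀ (norm_nonneg _) hb
            have h5 : p i * ‖A (cv ε p w T b i)‖ ^ (2 * q) ≤ p i * 1 :=
              mul_le_mul_of_nonneg_left hpow hpi.le
            have h6 : 0 ≤ p i * (τ + √(1 - τ ^ 2) ^ n / p₀) ^ (2 * q) :=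
              mul_nonneg hpi.le (pow_nonneg hρ0 _)
            have h7 : p i < p₀ := not_le.1 hcase
            linarith
        calc ∑ i, p i * ‖A (cv ε p w T b i)‖ ^ (2 * q)
            ≤ ∑ i, (p i * (τ + √(1 - τ ^ 2) ^ n / p₀) ^ (2 * q) + p₀) :=
              Finset.sum_le_sum fun i _ => hterm i
          _ = RB n q (Fintype.card ι) τ p₀ := by
              rw [Finset.sum_add_distrib, ← Finset.sum_mul, hsum]
              simp only [Finset.sum_const, Finset.card_univ, nsmul_eq_mul, one_mul]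
              rfl
      · -- second bound
        exact le_trans (h2 n j q ι ε p w T b A hn hq hε hp hav) (h3 n j q A hj1 hjn hA))
  refine le_trans key (le_of_eq ?_)
  unfold MB
  refine Finset.prod_congr rfl fun j _ => ?_
  show min (RB n q (Fintype.card ι) τ p₀) (((((j + 1 : ℕ) : ℝ) + 2 * q) / n) ^ q) = _
  rw [Nat.cast_add, Nat.cast_one]

end PPF
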