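import Pool.Agent.PPF.Stmts
import Pool.Agent.PPI.NFM

/-!
# PPF, module NFP (assembly): the theorem in normal form
-/

set_option autoImplicit false

namespace PPF

open MeasureTheory Set
open PPI

theorem nfp_proof (hAVE : PPI.Stmt_AVE) (hPEX : PPI.Stmt_PEX) (hFOC : PPI.Stmt_FOC)
    (hPLA : PPI.Stmt_PLA) (hLEV : PPI.Stmt_LEV) (hGMC : Stmt_GMC) (hTR2 : Stmt_TR2)
    (hMOC : Stmt_MOC) : Stmt_NFP := by
  intro n q ι _ p w W τ p₀ θ hn hq hNF hW hτ0 hτ1 hp0 hθ hMB
  have hn1 : 1 ≤ n := by omega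
  have hne : Nonempty ι := by
    by_contra h
    rw [not_nonempty_iff] at h
    have h1 := hNF.psum
    rw [Finset.univ_eq_empty, Finset.sum_empty] at h1
    exact zero_ne_one h1
  have hkap : 0 < kap n := (hAVE n hn1).1
  have hnR : (0 : ℝ) < n := by exact_mod_cast hn1
  have hn2 : (2 : ℝ) ≤ n := by exact_mod_cast hn
  -- lower bound for the functional
  set D : ℝ := Real.exp 1 * (n + 1) with hD
  have hDpos : 0 < D := by positivity
  obtain ⟨c0, hc0, hc0n⟩ : ∃ c0 : ℝ, 0 < c0 ∧ D * (2 * c0) ^ n ≤ W * kap n := by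
    have hpos : 0 < W * kap n := by positivity
    have hcont : Filter.Tendsto (fun c : ℝ => D * (2 * c) ^ n) (nhds 0) (nhds (D * (2 * 0) ^ n)) := by
      apply Continuous.tendsto
      fun_prop
    have h0 : D * (2 * (0:ℝ)) ^ n = 0 := by
      rw [mul_zero, zero_pow (by omega), mul_zero]
    rw [h0] at hcont
    have hev := hcont.eventually (gt_mem_nhds hpos)
    have hev2 : ∀ᶠ c in nhdsWithin (0:ℝ) (Ioi 0), D * (2 * c) ^ n < W * kap n :=
      hev.filter_mono nhdsWithin_le_nhds
    obtain ⟨c, h1, h2⟩ := (hev2.and self_mem_nhdsWithin).exists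
    exact ⟨c, h2, h1.le⟩
  set ε : ℝ := c0 / (n * (Real.log (Fintype.card ι) + 1)) with hε
  have hlog : 0 ≤ Real.log (Fintype.card ι) := by
    apply Real.log_nonneg
    have : 1 ≤ Fintype.card ι := Fintype.card_pos
    exact_mod_cast this
  have hεpos : 0 < ε := by positivity
  obtain ⟨T, b, hT, hmin⟩ := hPEX n ι ε p w W hn1 hεpos hNF
  obtain ⟨hws, lam, hlam⟩ := hFOC n ι ε p w T b hn1 hεpos hT hmin
  obtain ⟨hdet, hlamF⟩ := hPLA n ι ε p w T b lam hn1 hεpos hT hws hlam
  obtain ⟨hF0, hF1⟩ := hLEV n ι ε p w W T b hn1 hεpos hT hNF hW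
  set F : ℝ := Fn ε p w T b with hF
  have hFc : c0 ≤ F := by
    by_contra hlt
    push Not at hlt
    have h1 : (2 * F) ^ n < (2 * c0) ^ n := by
      apply pow_lt_pow_left₀ (by linarith) (by linarith) (by omega)
    have h2 : W * kap n ≤ D * (2 * F) ^ n := hF1
    have h3 : D * (2 * F) ^ n < D * (2 * c0) ^ n := by
      exact mul_lt_mul_of_pos_left h1 hDpos
    linarith
  have hεlog : ε * Real.log (Fintype.card ι) ≤ F / n := by
    have h1 : ε * Real.log (Fintype.card ι) ≤ ε * (Real.log (Fintype.card ι) + 1) := by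
      apply mul_le_mul_of_nonneg_left _ hεpos.le
      linarith
    have h2 : ε * (Real.log (Fintype.card ι) + 1) = c0 / n := by
      rw [hε]
      field_simp
    have h3 : c0 / n ≤ F / n := by
      apply div_le_div_of_nonneg_right hFc hnR.le
    linarith
  have hlow : F * (1 - 1 / n) ≤ n * lam := by
    have : F * (1 - 1 / n) = F - F / n := by ring
    rw [this]
    linarith
  have hquarter : (1 / 4 : ℝ) ≤ (1 - 1 / (n : ℝ)) ^ n := NFM_.quarter n hn
  have hlampow : F ^ n ≤ 4 * (n * lam) ^ n := by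
    have h1 : (F * (1 - 1 / n)) ^ n ≤ (n * lam) ^ n := by
      apply pow_le_pow_left₀ _ hlow
      apply mul_nonneg hF0.le
      rw [sub_nonneg, div_le_one hnR]
      linarith
    rw [mul_pow] at h1
    have h2 : 0 ≤ F ^ n := by positivity
    nlinarith [mul_le_mul_of_nonneg_left hquarter h2]
  have hmoc := hMOC n q ι ε p w T b τ p₀ hn1 hq hεpos hNF.ppos hNF.psum hws hτ0 hτ1 hp0
  have hG := hGMC n ι ε p w T b hn1 hεpos hNF.ppos
  have hDM : DM q p (cv ε p w T b) * (n : ℝ) ^ n ≤ θ ^ (2 * q) :=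
    (mul_le_mul_of_nonneg_right hmoc (by positivity)).trans hMB
  have htru := hTR2 n q ι p w (cv ε p w T b) W θ hn1 hq hNF hθ hDM
  rw [← hG] at htru
  rw [hdet] at htru
  -- assemble
  have hfac : (0:ℝ) < n.factorial := by exact_mod_cast n.factorial_pos
  calc W * (kap n * n.factorial) = (W * kap n) * n.factorial := by ring
    _ ≤ (D * (2 * F) ^ n) * n.factorial := by
        apply mul_le_mul_of_nonneg_right hF1 hfac.le
    _ = D * 2 ^ n * n.factorial * F ^ n := by rw [mul_pow]; ring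
    _ ≤ D * 2 ^ n * n.factorial * (4 * (n * lam) ^ n) := by
        apply mul_le_mul_of_nonneg_left hlampow
        positivity
    _ = 4 * D * (2 * n) ^ n * (n.factorial * lam ^ n) := by
        rw [mul_pow, mul_pow]; ring
    _ ≤ 4 * D * (2 * n) ^ n * (2 * θ * XT p w) := by
        apply mul_le_mul_of_nonneg_left htru
        positivity
    _ = 8 * Real.exp 1 * (n + 1) * θ * (2 * n) ^ n * XT p w := by
        rw [hD]; ring

end PPF
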