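import Pool.Agent.PPF.Stmts

/-!
# PPF, module NUD: the choice of the parameters
-/

set_option autoImplicit false

namespace PPF

open MeasureTheory Set Filter Topology
open PPI

namespace NUD_

theorem exp_neg_le {u : ℝ} (h0 : 0 ≤ u) (h1 : u ≤ 1 / 2) : Real.exp (-(2 * u)) ≤ 1 - u := by
  rw [Real.exp_neg]
  have h2 := Real.add_one_le_exp (2 * u)
  have h3 : (Real.exp (2 * u))⁻¹ ≤ (2 * u + 1)⁻¹ := inv_anti₀ (by linarith) h2
  refine h3.trans ?_
  rw [inv_le_iff_one_le_mul₀ (by linarith)]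
  nlinarith

end NUD_

theorem nud_proof : Stmt_NUD := by
  intro c hc
  obtain ⟨c', hc'0, hcc', hc'8⟩ : ∃ c' : ℝ, 0 ≤ c' ∧ c ≤ c' ∧ c' < 1 / 8 :=
    ⟨max c 0, le_max_right _ _, le_max_left _ _, max_lt hc (by norm_num)⟩
  have hη : 0 < 1 / 4 - 2 * c' := by linarith
  have hκ : 0 < (1 / 8 - c') / 2 := by linarith
  have t1 : Tendsto (fun n : ℕ => Real.log (n : ℝ)) atTop atTop :=
    Real.tendsto_log_atTop.comp tendsto_natCast_atTop_atTop
  have e1 : ∀ᶠ n : ℕ in atTop, (12 : ℝ) ≤ Real.log n := t1.eventually_ge_atTop 12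
  have e2 : ∀ᶠ n : ℕ in atTop, 6 / ((1 / 8 - c') / 2) ≤ Real.log n := t1.eventually_ge_atTop _
  have e3 : ∀ᶠ n : ℕ in atTop, ‖Real.log (n : ℝ)‖ ≤ 1 / 69 * ‖(n : ℝ) ^ (1 / 4 - 2 * c')‖ :=
    tendsto_natCast_atTop_atTop.eventually ((isLittleO_log_rpow_atTop hη).bound (by norm_num))
  obtain ⟨n₀, hn₀⟩ := eventually_atTop.1 ((eventually_ge_atTop 36).and (e1.and (e2.and e3)))
  refine ⟨n₀, fun n hn N hN => ?_⟩
  obtain ⟨hn36, hl12, hl6, hlη⟩ := hn₀ n hn
  have hn36' : (36 : ℝ) ≤ n := by exact_mod_cast hn36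
  have hn0 : (0 : ℝ) < n := by linarith
  obtain ⟨l, hl⟩ : ∃ l, l = Real.log n := ⟨_, rfl⟩
  rw [← hl] at hl12 hl6 hlη
  have hl0 : 0 < l := by linarith
  have hexpl : Real.exp l = n := by rw [hl, Real.exp_log hn0]
  have hln : l ≤ n := by
    have := Real.add_one_le_exp l
    rw [hexpl] at this
    linarith
  obtain ⟨b, hb⟩ : ∃ b, b = c' + 1 / 8 := ⟨_, rfl⟩
  obtain ⟨u, hu⟩ : ∃ u, u = Real.exp (-(b * l)) := ⟨_, rfl⟩
  have hu0 : 0 < u := by rw [hu]; exact Real.exp_pos _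
  have hu4 : 4 * u ≤ 1 := by
    have h1 : u ≤ Real.exp (-(3 / 2)) := by
      rw [hu]
      apply Real.exp_le_exp.mpr
      nlinarith
    have h2 : (4 : ℝ) ≤ Real.exp (3 / 2) := by
      have h3 : Real.exp (3 / 2) = Real.exp 1 * Real.exp (1 / 2) := by
        rw [← Real.exp_add]
        norm_num
      have h4 := Real.exp_one_gt_d9
      have h5 := Real.add_one_le_exp (1 / 2 : ℝ)
      rw [h3]
      nlinarith [Real.exp_pos (1 / 2 : ℝ)]
    have h3 : Real.exp (-(3 / 2)) * Real.exp (3 / 2) = 1 := by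
      rw [← Real.exp_add]
      norm_num
    nlinarith [Real.exp_pos (-(3 / 2) : ℝ)]
  obtain ⟨s, hs⟩ : ∃ s, s = √(n : ℝ) := ⟨_, rfl⟩
  have hss : s * s = n := by rw [hs]; exact Real.mul_self_sqrt hn0.le
  have hs6 : 6 ≤ s := by
    rw [hs]
    apply Real.le_sqrt_of_sq_le
    linarith
  obtain ⟨q, hq⟩ : ∃ q : ℕ, q = ⌈s⌉₊ := ⟨_, rfl⟩
  have hq1 : s ≤ (q : ℝ) := by rw [hq]; exact Nat.le_ceil s
  have hq2 : (q : ℝ) ≤ s + 1 := by
    rw [hq]
    exact (Nat.ceil_lt_add_one (by linarith)).le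
  have hqpos : 1 ≤ q := by
    have : (0 : ℝ) < q := by linarith
    exact_mod_cast this
  -- the number `p₀`
  obtain ⟨r, hr⟩ : ∃ r, r = √(4 * u) := ⟨_, rfl⟩
  have hr0 : 0 < r := by rw [hr]; exact Real.sqrt_pos.mpr (by linarith)
  have hrn : r ^ n = Real.exp (n * ((Real.log 4 - b * l) / 2)) := by
    have h1 : r = Real.exp ((Real.log 4 - b * l) / 2) := by
      rw [hr, Real.sqrt_eq_iff_mul_self_eq (by linarith) (Real.exp_pos _).le, ← Real.exp_add]
      have : (Real.log 4 - b * l) / 2 + (Real.log 4 - b * l) / 2 = Real.log 4 + -(b * l) := by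
        ring
      rw [this, Real.exp_add, Real.exp_log (by norm_num), hu]
    rw [h1, ← Real.exp_nat_mul]
  have hR0 : 0 < 1 - u := by linarith
  have hmain : (N : ℝ) * (r ^ n / u) ≤ (1 - u) ^ q * (1 - (1 - u) ^ q) := by
    have h1 : (N : ℝ) ≤ Real.exp (l * (c' * n)) := by
      refine hN.trans ?_
      rw [Real.rpow_def_of_pos hn0, ← hl]
      apply Real.exp_le_exp.mpr
      apply mul_le_mul_of_nonneg_left _ hl0.le
      apply mul_le_mul_of_nonneg_right hcc' hn0.le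
    have h2 : r ^ n / u = Real.exp (n * ((Real.log 4 - b * l) / 2) + b * l) := by
      rw [hrn, hu, ← Real.exp_sub]
      ring_nf
    have h3 : (N : ℝ) * (r ^ n / u) ≤
        Real.exp (l * (c' * n) + (n * ((Real.log 4 - b * l) / 2) + b * l)) := by
      rw [Real.exp_add, h2]
      exact mul_le_mul_of_nonneg_right h1 (Real.exp_pos _).le
    have h4 : Real.exp (-(2 * u * q)) ≤ (1 - u) ^ q := by
      have h5 := NUD_.exp_neg_le hu0.le (by linarith)
      have h6 : Real.exp (-(2 * u * q)) = Real.exp (-(2 * u)) ^ q := by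
        rw [← Real.exp_nat_mul]
        ring_nf
      rw [h6]
      exact pow_le_pow_left₀ (Real.exp_pos _).le h5 q
    have h5 : u ≤ 1 - (1 - u) ^ q := by
      have := pow_le_of_le_one hR0.le (by linarith) (n := q) (by omega)
      linarith
    have h6 : Real.exp (-(2 * u * q) + -(b * l)) ≤ (1 - u) ^ q * (1 - (1 - u) ^ q) := by
      rw [Real.exp_add, ← hu]
      exact mul_le_mul h4 h5 hu0.le (pow_nonneg hR0.le q)
    refine (h3.trans ?_).trans h6
    apply Real.exp_le_exp.mpr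
    have h7 : Real.log 4 ≤ 2 := by
      have : Real.log 4 = 2 * Real.log 2 := by
        rw [show (4 : ℝ) = 2 ^ 2 by norm_num, Real.log_pow]
        norm_num
      rw [this]
      have := Real.log_two_lt_d9
      linarith
    have h8 : 2 * u * q ≤ q := by nlinarith
    have h9 : 6 ≤ (1 / 8 - c') / 2 * l := by
      rw [div_le_iff₀ hκ] at hl6
      linarith
    have h10 : 6 * n ≤ (1 / 8 - c') / 2 * l * n := mul_le_mul_of_nonneg_right h9 hn0.le
    have h11 : n * (Real.log 4 / 2) ≤ n := by nlinarith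
    have h12 : b * l ≤ n := by
      have : b ≤ 1 := by linarith
      nlinarith
    have h13 : s ≤ n := by nlinarith
    have h14 : l * (c' * n) + (n * ((Real.log 4 - b * l) / 2) + b * l) =
        n * (Real.log 4 / 2) + b * l - (1 / 8 - c') / 2 * l * n := by
      rw [hb]
      ring
    rw [h14]
    linarith
  refine ⟨q, 1 - 2 * u, r ^ n / u, 1 - u, hqpos, by linarith, by linarith,
    div_pos (pow_pos hr0 n) hu0, hR0, by linarith, ?_, ?_, ?_⟩
  · -- 2q+1 ≤ R n
    have h1 : (3 / 4 : ℝ) ≤ 1 - u := by linarith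
    have h2 : 3 / 4 * (n : ℝ) ≤ (1 - u) * n := mul_le_mul_of_nonneg_right h1 hn0.le
    nlinarith
  · -- RB
    have h1 : √(1 - (1 - 2 * u) ^ 2) ≤ r := by
      rw [hr]
      apply Real.sqrt_le_sqrt
      nlinarith
    have h2 : √(1 - (1 - 2 * u) ^ 2) ^ n ≤ r ^ n := pow_le_pow_left₀ (Real.sqrt_nonneg _) h1 n
    have h3 : √(1 - (1 - 2 * u) ^ 2) ^ n / (r ^ n / u) ≤ u := by
      rw [div_le_iff₀ (div_pos (pow_pos hr0 n) hu0)]
      rw [mul_div_cancel₀ _ hu0.ne']
      exact h2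
    have h4 : 0 ≤ √(1 - (1 - 2 * u) ^ 2) ^ n / (r ^ n / u) := by positivity
    have h5 : (1 - 2 * u + √(1 - (1 - 2 * u) ^ 2) ^ n / (r ^ n / u)) ^ (2 * q) ≤
        (1 - u) ^ (2 * q) := by
      apply pow_le_pow_left₀
      · linarith
      · linarith
    have h6 : (1 - u) ^ (2 * q) = (1 - u) ^ q * (1 - u) ^ q := by rw [two_mul, pow_add]
    unfold RB
    rw [h6] at h5
    nlinarith
  · -- last inequality
    have hn1 : (0 : ℝ) < (n : ℝ) + 1 := by linarith
    have h64 : (64 : ℝ) ≤ Real.exp 5 := by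
      have h3 : Real.exp 5 = Real.exp 1 ^ 5 := by
        rw [← Real.exp_nat_mul]
        norm_num
      have h4 := Real.exp_one_gt_d9
      rw [h3]
      have h5 : (2.7 : ℝ) ≤ Real.exp 1 := by linarith
      have h6 := pow_le_pow_left₀ (by norm_num) h5 5
      norm_num at h6 ⊢
      linarith
    have hnn : (n : ℝ) + 1 ≤ Real.exp (2 * l) := by
      rw [two_mul, Real.exp_add, hexpl]
      nlinarith
    have hRR : (1 - (1 - u)) ^ 2 = u ^ 2 := by ring
    have hn2q : (n : ℝ) ^ (2 * q) = Real.exp (2 * q * l) := by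
      rw [← hexpl, ← Real.exp_nat_mul]
      push_cast
      ring_nf
    have hnnn : (n : ℝ) ^ n = Real.exp (n * l) := by
      have : (n : ℝ) ^ n = Real.exp l ^ n := by rw [hexpl]
      rw [this, ← Real.exp_nat_mul]
    have h1 : 64 * Real.exp 3 * ((n : ℝ) + 1) ^ 2 *
        ((n : ℝ) ^ (2 * q) * Real.exp (-((1 - (1 - u)) ^ 2 * n / 4))) ≤
        Real.exp (5 + 3 + 4 * l + (2 * q * l + -(u ^ 2 * n / 4))) := by
      rw [hRR, hn2q, Real.exp_add, Real.exp_add, Real.exp_add, Real.exp_add (2 * q * l)]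
      have h2 : ((n : ℝ) + 1) ^ 2 ≤ Real.exp (4 * l) := by
        have h3 : Real.exp (4 * l) = Real.exp (2 * l) ^ 2 := by
          rw [← Real.exp_nat_mul]
          ring_nf
        rw [h3]
        exact pow_le_pow_left₀ hn1.le hnn 2
      gcongr
    have h2 : (64 * Real.exp 3 * ((n : ℝ) + 1) ^ 2 *
        ((n : ℝ) ^ (2 * q) * Real.exp (-((1 - (1 - u)) ^ 2 * n / 4)))) ^ q * (n : ℝ) ^ n ≤
        Real.exp (q * (5 + 3 + 4 * l + (2 * q * l + -(u ^ 2 * n / 4))) + n * l) := by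
      rw [Real.exp_add, Real.exp_nat_mul, hnnn]
      apply mul_le_mul_of_nonneg_right _ (Real.exp_pos _).le
      exact pow_le_pow_left₀ (by positivity) h1 q
    refine lt_of_le_of_lt h2 ?_
    rw [Real.exp_lt_one_iff]
    -- `u^2 n = s * n^η`
    have hη1 : u ^ 2 * n = s * (n : ℝ) ^ (1 / 4 - 2 * c') := by
      have h3 : u ^ 2 = Real.exp (-(2 * b * l)) := by
        rw [hu, ← Real.exp_nat_mul]
        ring_nf
      have h4 : s = Real.exp (l / 2) := by
        rw [hs, Real.sqrt_eq_iff_mul_self_eq hn0.le (Real.exp_pos _).le, ← Real.exp_add, ← hexpl]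
        ring_nf
      rw [h3, h4, Real.rpow_def_of_pos hn0, ← hl, ← Real.exp_add]
      have h5 : (n : ℝ) = Real.exp l := hexpl.symm
      rw [h5, ← Real.exp_add, hb]
      ring_nf
    have hη2 : 69 * l ≤ (n : ℝ) ^ (1 / 4 - 2 * c') := by
      rw [Real.norm_of_nonneg hl0.le, Real.norm_of_nonneg (Real.rpow_nonneg hn0.le _)] at hlη
      linarith
    have hη3 : 69 * l * s ≤ u ^ 2 * n := by
      rw [hη1]
      nlinarith
    have hnl : (n : ℝ) * l ≤ q * (s * l) := by
      rw [← hss]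
      have : s * s * l = s * (s * l) := by ring
      rw [this]
      exact mul_le_mul_of_nonneg_right hq1 (by positivity)
    have hq0 : (0 : ℝ) < q := by linarith
    have h3 : 5 + 3 + 4 * l + (2 * q * l + -(u ^ 2 * n / 4)) + s * l < 0 := by
      have h4 : 2 * q * l ≤ 2 * (s + 1) * l := by
        apply mul_le_mul_of_nonneg_right _ hl0.le
        linarith
      have h5 : l * 6 ≤ l * s := mul_le_mul_of_nonneg_left hs6 hl0.le
      nlinarith
    nlinarith

end PPF
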