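import Pool.Agent.PPF.Stmts

/-!
# PPF, module NUE (assembly): choice of the parameters
-/

set_option autoImplicit false

namespace PPF

open MeasureTheory Set
open PPI

theorem nue_proof (hNUC : Stmt_NUC) (hNUD : Stmt_NUD) : Stmt_NUE := by
  intro c hc
  obtain ⟨n₀, hn₀⟩ := hNUD c hc
  refine ⟨max n₀ 1, fun n hn N hN => ?_⟩
  have hn1 : 1 ≤ n := le_trans (le_max_right _ _) hn
  have hnR : (0 : ℝ) < n := by exact_mod_cast hn1
  obtain ⟨q, τ, p₀, R, hq, h0, h1, hp0, hR0, hR1, hqR, hRB, hfin⟩ :=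
    hn₀ n (le_trans (le_max_left _ _) hn) N hN
  set P : ℝ := ∏ j ∈ Finset.range n, min R (((j : ℝ) + 1 + 2 * q) / n) with hP
  have hP0 : 0 < P := Finset.prod_pos fun j _ => lt_min hR0 (by positivity)
  have hMB : MB n q (RB n q N τ p₀) ≤ P ^ q := by
    unfold MB
    rw [hP, ← Finset.prod_pow]
    refine Finset.prod_le_prod (fun j _ => ?_) (fun j _ => ?_)
    · refine le_min ?_ (by positivity)
      unfold RB
      positivity
    · have ha : 0 ≤ R := hR0.le
      have hb : 0 ≤ ((j : ℝ) + 1 + 2 * q) / n := by positivity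
      rcases le_total R (((j : ℝ) + 1 + 2 * q) / n) with h | h
      · rw [min_eq_left h]
        exact (min_le_left _ _).trans hRB
      · rw [min_eq_right h]
        exact min_le_right _ _
  have hPn : 0 < P ^ q * (n : ℝ) ^ n := by positivity
  set θ : ℝ := (P ^ q * (n : ℝ) ^ n) ^ ((1 : ℝ) / ((2 * q : ℕ) : ℝ)) with hθ
  have hθ0 : 0 < θ := Real.rpow_pos_of_pos hPn _
  have hq2 : 2 * q ≠ 0 := by omega
  have hθq : θ ^ (2 * q) = P ^ q * (n : ℝ) ^ n := by
    rw [hθ, one_div, Real.rpow_inv_natCast_pow hPn.le hq2]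
  refine ⟨q, τ, p₀, θ, hq, h0, h1, hp0, hθ0, ?_, ?_⟩
  · rw [hθq]
    exact mul_le_mul_of_nonneg_right hMB (by positivity)
  · have hC := hNUC n q R hn1 hq hR0 hR1 hqR
    rw [← hP] at hC
    have hG : (0 : ℝ) < (n : ℝ) ^ n / n.factorial := by positivity
    set X : ℝ := √(Real.exp 1) * √((n : ℝ) ^ n / n.factorial) *
      (8 * Real.exp 1 * (n + 1) * θ) with hX
    have hX0 : 0 ≤ X := by positivity
    have hXq : X ^ (2 * q) = (64 * Real.exp 3 * ((n : ℝ) + 1) ^ 2 *
        ((n : ℝ) ^ n / n.factorial * P)) ^ q * (n : ℝ) ^ n := by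
      have e1 : X ^ (2 * q) = ((√(Real.exp 1) ^ 2) * (√((n : ℝ) ^ n / n.factorial) ^ 2) *
          (64 * Real.exp 1 ^ 2 * ((n : ℝ) + 1) ^ 2)) ^ q * θ ^ (2 * q) := by
        rw [hX, pow_mul, pow_mul θ 2 q, ← mul_pow]
        congr 1
        ring
      rw [e1, Real.sq_sqrt (Real.exp_pos 1).le, Real.sq_sqrt hG.le, hθq]
      have e2 : Real.exp 3 = Real.exp 1 * Real.exp 1 ^ 2 := by
        rw [← Real.exp_nat_mul, ← Real.exp_add]
        norm_num
      rw [e2, ← mul_assoc, ← mul_pow]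
      congr 2
      ring
    have hle : X ^ (2 * q) ≤ (64 * Real.exp 3 * ((n : ℝ) + 1) ^ 2 *
        ((n : ℝ) ^ (2 * q) * Real.exp (-((1 - R) ^ 2 * n / 4)))) ^ q * (n : ℝ) ^ n := by
      rw [hXq]
      refine mul_le_mul_of_nonneg_right ?_ (by positivity)
      refine pow_le_pow_left₀ (by positivity) ?_ q
      exact mul_le_mul_of_nonneg_left hC (by positivity)
    by_contra hcon
    push Not at hcon
    have : 1 ≤ X ^ (2 * q) := one_le_pow₀ hcon
    linarith

end PPF
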