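import Pool.Agent.PPF.Stmts

/-!
# Squad PPF (MP_0bf616_gt), module POL: bounded intersections of half-spaces
-/

set_option autoImplicit false

namespace PPF

open MeasureTheory Set Filter Topology
open PPI

theorem pol_proof : Stmt_POL := by
  intro n N v b hne
  obtain ⟨z, hz⟩ := hne
  have hzs : ∀ i, inner ℝ (v i) z ≤ b i := by
    have := interior_subset hz
    exact this
  have hpos : ∀ i, v i ≠ 0 → 0 < b i - inner ℝ (v i) z := by
    intro i hi
    have hcont : Continuous (fun t : ℝ => z + t • v i) := by fun_prop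
    have h0 : (fun t : ℝ => z + t • v i) 0 ∈ interior {x : EE n | ∀ i, inner ℝ (v i) x ≤ b i} := by
      simpa using hz
    have hnh : (fun t : ℝ => z + t • v i) ⁻¹' interior {x : EE n | ∀ i, inner ℝ (v i) x ≤ b i} ∈
        𝓝 (0 : ℝ) := hcont.continuousAt.preimage_mem_nhds (isOpen_interior.mem_nhds h0)
    obtain ⟨δ, hδ, hδ'⟩ := Metric.mem_nhds_iff.1 hnh
    have h1 : (δ / 2) ∈ Metric.ball (0 : ℝ) δ := by
      rw [Metric.mem_ball, Real.dist_eq, sub_zero, abs_of_pos (by positivity)]
      linarith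
    have h2 : z + (δ / 2) • v i ∈ {x : EE n | ∀ i, inner ℝ (v i) x ≤ b i} :=
      interior_subset (hδ' h1)
    have h3 : inner ℝ (v i) (z + (δ / 2) • v i) ≤ b i := h2 i
    rw [inner_add_right, real_inner_smul_right, real_inner_self_eq_norm_sq] at h3
    have h4 : 0 < ‖v i‖ ^ 2 := by
      have := norm_pos_iff.2 hi
      positivity
    have h5 : 0 < δ / 2 * ‖v i‖ ^ 2 := by positivity
    linarith
  have key : ∀ (i : Fin N) (y : EE n), inner ℝ (v i) y ≤ b i - inner ℝ (v i) z ↔
      inner ℝ ((b i - inner ℝ (v i) z)⁻¹ • v i) y ≤ 1 := by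
    intro i y
    by_cases hi : v i = 0
    · have h1 := hzs i
      rw [hi] at h1 ⊢
      simp only [inner_zero_left, smul_zero, sub_zero, zero_le_one, iff_true] at h1 ⊢
      exact h1
    · have h1 := hpos i hi
      rw [real_inner_smul_left, inv_mul_le_iff₀ h1, mul_one]
  refine ⟨fun i => (b i - inner ℝ (v i) z)⁻¹ • v i, z, ?_⟩
  ext x
  constructor
  · intro hx
    refine ⟨x - z, ?_, by simp⟩
    intro i
    rw [← key i, inner_sub_right]
    have := hx i
    linarith
  · rintro ⟨y, hy, rfl⟩
    intro i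
    have h1 := (key i y).2 (hy i)
    show inner ℝ (v i) (y + z) ≤ b i
    rw [inner_add_right]
    linarith

end PPF
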