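import Pool.Agent.PPF.Stmts

/-!
# PPF, module PTP (assembly): the theorem for polytopes `Pol v`
-/

set_option autoImplicit false

namespace PPF

open MeasureTheory Set
open PPI

namespace PTP_

theorem rb_nonneg (n q N : ℕ) (τ p₀ : ℝ) (h0 : 0 ≤ τ) (hp : 0 < p₀) : 0 ≤ RB n q N τ p₀ := by
  unfold RB
  positivity

theorem mb_mono (n q : ℕ) {r r' : ℝ} (h0 : 0 ≤ r) (h : r ≤ r') : MB n q r ≤ MB n q r' := by
  unfold MB
  refine Finset.prod_le_prod (fun j _ => ?_) (fun j _ => ?_)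
  · exact le_min h0 (by positivity)
  · exact min_le_min_right _ h

theorem rb_mono (n q : ℕ) {N N' : ℕ} (τ p₀ : ℝ) (hp : 0 < p₀) (h : N ≤ N') :
    RB n q N τ p₀ ≤ RB n q N' τ p₀ := by
  unfold RB
  have : (N : ℝ) ≤ N' := by exact_mod_cast h
  have := mul_le_mul_of_nonneg_right this hp.le
  linarith

end PTP_

theorem ptp_proof (hAVE : PPI.Stmt_AVE) (hNFP : Stmt_NFP) (hGE2 : Stmt_GE2)
    (hRE2 : Stmt_RE2) : Stmt_PTP := by
  intro n q N v τ p₀ θ hn hq hc hv h0 h1 hp0 hθ hMB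
  have hn1 : 1 ≤ n := by omega
  have hnR : (0 : ℝ) < n := by exact_mod_cast hn1
  have hkap : 0 < kap n := (hAVE n hn1).1
  have hfac : (0 : ℝ) < n.factorial := by exact_mod_cast n.factorial_pos
  set C0 : ℝ := 8 * Real.exp 1 * (n + 1) * θ with hC0
  have hC0pos : 0 < C0 := by positivity
  obtain ⟨ι, _, a, w, hcard, hMK, hXT⟩ := hGE2 n N v hn hc hv
  have hWpos : 0 < vl (Pol v) ^ (n - 1) := by positivity
  have hMB' : MB n q (RB n q (Fintype.card ι) τ p₀) * (n : ℝ) ^ n ≤ θ ^ (2 * q) := by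
    refine le_trans ?_ hMB
    refine mul_le_mul_of_nonneg_right ?_ (by positivity)
    exact PTP_.mb_mono n q (PTP_.rb_nonneg n q _ τ p₀ h0 hp0) (PTP_.rb_mono n q τ p₀ hp0 hcard)
  have h2 := hRE2 n (C0 * (2 * n) ^ n / (kap n * n.factorial)) ι hn1 (by
    intro p' w' W' hNF' hW'
    have h3 := hNFP n q ι p' w' W' τ p₀ θ hn hq hNF' hW' h0 h1 hp0 hθ hMB'
    rw [div_mul_eq_mul_div, le_div_iff₀ (by positivity)]
    exact h3) a w _ hMK hWpos
  rw [div_mul_eq_mul_div, le_div_iff₀ (by positivity)] at h2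
  have h2n : (0 : ℝ) < (2 * n) ^ n := by positivity
  have h4 : vl (Pol v) ^ (n - 1) * (kap n * n.factorial) ≤ C0 * XT a w := by
    have h5 : (2 * (n : ℝ)) ^ n * (vl (Pol v) ^ (n - 1) * (kap n * n.factorial)) ≤
        (2 * (n : ℝ)) ^ n * (C0 * XT a w) := by
      calc (2 * (n : ℝ)) ^ n * (vl (Pol v) ^ (n - 1) * (kap n * n.factorial))
          = (2 * (n : ℝ)) ^ n * vl (Pol v) ^ (n - 1) * (kap n * n.factorial) := by ring
        _ ≤ C0 * (2 * (n : ℝ)) ^ n * XT a w := h2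
        _ = (2 * (n : ℝ)) ^ n * (C0 * XT a w) := by ring
    exact le_of_mul_le_mul_left h5 h2n
  have h6 : vl (Pol v) ^ (n - 1) * (kap n * n.factorial) ≤
      C0 * (n.factorial * vl (projBody (Pol v))) :=
    h4.trans (mul_le_mul_of_nonneg_left hXT hC0pos.le)
  have h8 : (n.factorial : ℝ) * (kap n * vl (Pol v) ^ (n - 1)) ≤
      n.factorial * (C0 * vl (projBody (Pol v))) := by
    calc (n.factorial : ℝ) * (kap n * vl (Pol v) ^ (n - 1))
        = vl (Pol v) ^ (n - 1) * (kap n * n.factorial) := by ring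
      _ ≤ C0 * (n.factorial * vl (projBody (Pol v))) := h6
      _ = n.factorial * (C0 * vl (projBody (Pol v))) := by ring
  exact le_of_mul_le_mul_left h8 hfac

end PPF
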