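import Pool.Agent.PPF.Stmts

/-!
Squad PPF, RE2: reduction to the normal form (from SPN, AUE, TRX, TRM)
-/

set_option autoImplicit false

namespace PPF

open MeasureTheory Set Filter Topology
open PPI
open scoped ENNReal Pointwise

namespace RE2_

variable {n : ℕ} {ι : Type} [Fintype ι]

/-- the `ℓ¹`-norm -/
noncomputable def rr (x : EE n) : ℝ := ∑ k, |x k|

lemma rr_pos {x : EE n} (h : x ≠ 0) : 0 < rr x := by
  unfold rr
  have h0 : ∃ k, x k ≠ 0 := by
    by_contra hc
    push Not at hc
    apply h
    ext k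
    exact hc k
  obtain ⟨k, hk⟩ := h0
  refine Finset.sum_pos' (fun _ _ => abs_nonneg _) ⟨k, Finset.mem_univ _, abs_pos.2 hk⟩

lemma dt_smul (c : Fin n → ℝ) (x : Fin n → EE n) :
    dt (fun k => c k • x k) = (∏ k, c k) * dt x := by
  unfold dt
  rw [← Matrix.det_mul_column]
  rfl

lemma XT_smul (m : ℝ) (a r : ι → ℝ) (v : ι → EE n) (hr : ∀ i, 0 < r i) :
    XT (fun i => a i * r i / m) (fun i => (r i)⁻¹ • v i) = XT a v / m ^ n := by
  unfold XT
  rw [Finset.sum_div]
  refine Finset.sum_congr rfl fun f _ => ?_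
  rw [dt_smul (fun k => (r (f k))⁻¹) (fun k => v (f k)), abs_mul, Finset.prod_div_distrib,
    Finset.prod_mul_distrib, Finset.prod_const, Finset.card_univ, Fintype.card_fin,
    Finset.prod_inv_distrib]
  have h0 : 0 < ∏ k, r (f k) := Finset.prod_pos fun k _ => hr _
  rw [abs_of_pos (inv_pos.2 h0)]
  field_simp

end RE2_

open RE2_ in
theorem re2_proof (h1 : PPI.Stmt_SPN) (h2 : PPI.Stmt_AUE) (h3 : PPI.Stmt_TRX) (h4 : PPI.Stmt_TRM) :
    Stmt_RE2 := by
  intro n C ι _ hn H a v W hMK hW
  obtain ⟨A, hA, hA2, hA3⟩ := h2 n ι a v hn hMK.pos (h1 n ι a v W hn hMK hW)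
  have hM := h4 n ι a v W A hA hMK
  have hX := h3 n ι a v A
  have hd : 0 < |A.det| := abs_pos.2 hA
  have hn0 : (0 : ℝ) < n := by exact_mod_cast hn
  have hr : ∀ i, 0 < rr (A (v i)) := fun i => rr_pos (hM.ne i)
  have hsum : ∑ i, a i * rr (A (v i)) = 2 * n := by
    unfold rr
    simp only [Finset.mul_sum]
    rw [Finset.sum_comm]
    rw [Finset.sum_congr rfl (fun k _ => hA2 k), Finset.sum_const, Finset.card_univ,
      Fintype.card_fin, nsmul_eq_mul]
    ring
  have hcen : ∀ k, ∑ i, a i * A (v i) k = 0 := by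
    intro k
    have hin : ∀ (c : ℝ) (x : EE n), inner ℝ x (EuclideanSpace.single k c) = c * x k := by
      intro c x
      rw [EuclideanSpace.inner_single_right]
      simp
    have e1 := (hM.mink {EuclideanSpace.single k (1 : ℝ)} (fun i => 1 * A (v i) k)
      isCompact_singleton (convex_singleton _) (Set.singleton_nonempty _) (by
        intro i x hx
        rw [Set.mem_singleton_iff] at hx
        rw [hx, hin])).1
    have e2 := (hM.mink {EuclideanSpace.single k (-1 : ℝ)} (fun i => -1 * A (v i) k)
      isCompact_singleton (convex_singleton _) (Set.singleton_nonempty _) (by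
        intro i x hx
        rw [Set.mem_singleton_iff] at hx
        rw [hx, hin])).1
    have e3 : ∑ i, a i * (-1 * A (v i) k) = -∑ i, a i * A (v i) k := by
      rw [← Finset.sum_neg_distrib]
      refine Finset.sum_congr rfl fun i _ => by ring
    rw [e3] at e2
    simp only [one_mul] at e1
    linarith
  have hNF : NF (fun i => a i * rr (A (v i)) / (2 * n)) (fun i => (rr (A (v i)))⁻¹ • A (v i))
      (|A.det| * W) := by
    refine ⟨?_, ?_, ?_, ?_, ?_, ?_⟩
    · intro i
      have := hM.pos i
      have := hr i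
      positivity
    · rw [← Finset.sum_div, hsum]
      field_simp
    · intro i
      have h := hr i
      have e : ∀ k, |((rr (A (v i)))⁻¹ • A (v i)) k| = (rr (A (v i)))⁻¹ * |A (v i) k| := by
        intro k
        rw [PiLp.smul_apply, smul_eq_mul, abs_mul, abs_of_pos (inv_pos.2 h)]
      rw [Finset.sum_congr rfl (fun k _ => e k), ← Finset.mul_sum]
      have : (rr (A (v i)))⁻¹ * ∑ k, |A (v i) k| = 1 := by
        change (rr (A (v i)))⁻¹ * rr (A (v i)) = 1
        exact inv_mul_cancel₀ h.ne'
      rw [this]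
    · intro y k
      have h := hA3 y k
      have e : ∀ i, a i * rr (A (v i)) / (2 * n) * |inner ℝ ((rr (A (v i)))⁻¹ • A (v i)) y| =
          (1 / (2 * n)) * (a i * |inner ℝ (A (v i)) y|) := by
        intro i
        have h := hr i
        rw [real_inner_smul_left, abs_mul, abs_of_pos (inv_pos.2 h)]
        field_simp
      rw [Finset.sum_congr rfl (fun i _ => e i), ← Finset.mul_sum]
      have e2 : (n : ℝ) * (1 / (2 * n) * ∑ i, a i * |inner ℝ (A (v i)) y|) =
          (∑ i, a i * |inner ℝ (A (v i)) y|) / 2 := by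
        field_simp
      rw [e2]
      linarith
    · intro k
      have e : ∀ i, a i * rr (A (v i)) / (2 * n) * ((rr (A (v i)))⁻¹ • A (v i)) k =
          (1 / (2 * n)) * (a i * A (v i) k) := by
        intro i
        have h := hr i
        rw [PiLp.smul_apply, smul_eq_mul]
        field_simp
      rw [Finset.sum_congr rfl (fun i _ => e i), ← Finset.mul_sum, hcen k, mul_zero]
    · intro L c hL1 hL2 hL3 hc
      have h := (hM.mink L (fun i => rr (A (v i)) * c i) hL1 hL2 hL3 (by
        intro i x hx
        have h1 := hc i x hx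
        rw [real_inner_smul_left] at h1
        have h2 := mul_le_mul_of_nonneg_left h1 (hr i).le
        rw [← mul_assoc, mul_inv_cancel₀ (hr i).ne', one_mul] at h2
        exact h2)).2
      have e : (2 * ∑ i, a i * rr (A (v i)) / (2 * n) * c i) =
          (∑ i, a i * (rr (A (v i)) * c i)) / n := by
        rw [Finset.mul_sum, Finset.sum_div]
        refine Finset.sum_congr rfl fun i _ => ?_
        field_simp
      rw [e, div_pow, le_div_iff₀ (by positivity)]
      linarith
  have hW' : 0 < |A.det| * W := by positivity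
  have hfin := H _ _ _ hNF hW'
  rw [XT_smul (2 * n) a (fun i => rr (A (v i))) (fun i => A (v i)) hr, hX] at hfin
  have h2n : (0 : ℝ) < (2 * n) ^ n := by positivity
  refine le_of_mul_le_mul_left ?_ hd
  calc |A.det| * ((2 * n : ℝ) ^ n * W) = (2 * n : ℝ) ^ n * (|A.det| * W) := by ring
    _ ≤ (2 * n : ℝ) ^ n * (C * (|A.det| * XT a v / (2 * n) ^ n)) := by gcongr
    _ = |A.det| * (C * XT a v) := by
        field_simp

end PPF
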