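import Pool.Agent.PPF.Stmts

/-!
# Module ROT: the first row is rotated away
-/

set_option autoImplicit false

namespace PPF

open MeasureTheory Set Filter Topology
open PPI

namespace ROT_

lemma dt_sq {n : ℕ} (x : Fin n → EE n) :
    dt x ^ 2 = Matrix.det (Matrix.of fun i j : Fin n => inner ℝ (x i) (x j)) := by
  have h : (Matrix.of fun i j : Fin n => inner ℝ (x i) (x j)) =
      (Matrix.of fun k j => x k j) * (Matrix.of fun k j => x k j).transpose := by
    ext i j
    rw [Matrix.mul_apply, Matrix.of_apply, PiLp.inner_apply]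
    refine Finset.sum_congr rfl fun k _ => ?_
    simp only [Matrix.of_apply, Matrix.transpose_apply]
    simp [mul_comm]
  rw [h, Matrix.det_mul, Matrix.det_transpose]
  unfold dt
  ring

lemma dt_iso {n : ℕ} (O : EE n ≃ₗᵢ[ℝ] EE n) (x : Fin n → EE n) :
    dt (fun k => O (x k)) ^ 2 = dt x ^ 2 := by
  rw [dt_sq, dt_sq]
  simp only [LinearIsometryEquiv.inner_map_map]

lemma dt_cons_smul {n : ℕ} (c : ℝ) (u : EE (n + 1)) (x : Fin n → EE (n + 1)) :
    dt (Fin.cons (c • u) x : Fin (n + 1) → EE (n + 1)) =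
      c * dt (Fin.cons u x : Fin (n + 1) → EE (n + 1)) := by
  have h := Matrix.det_mul_column (Fin.cons c (fun _ => 1) : Fin (n + 1) → ℝ)
    (Matrix.of fun k j => (Fin.cons u x : Fin (n + 1) → EE (n + 1)) k j)
  rw [Fin.prod_univ_succ] at h
  simp only [Fin.cons_zero, Fin.cons_succ, Finset.prod_const_one, mul_one] at h
  unfold dt
  rw [← h]
  congr 1
  ext i j
  refine Fin.cases ?_ (fun i => ?_) i
  · simp
  · simp

/-- the tail of a vector -/
noncomputable def tl (n : ℕ) : EE (n + 1) →ₗ[ℝ] EE n where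
  toFun z := WithLp.toLp 2 fun j => z j.succ
  map_add' x y := by
    ext j
    simp
  map_smul' c x := by
    ext j
    simp

/-- adding a zero in front -/
noncomputable def cs (n : ℕ) : EE n →ₗ[ℝ] EE (n + 1) where
  toFun y := WithLp.toLp 2 (Fin.cons 0 (fun j => y j) : Fin (n + 1) → ℝ)
  map_add' x y := by
    ext j
    refine Fin.cases ?_ (fun i => ?_) j
    · simp
    · simp
  map_smul' c x := by
    ext j
    refine Fin.cases ?_ (fun i => ?_) j
    · simp
    · simp

lemma tl_apply {n : ℕ} (z : EE (n + 1)) (j : Fin n) : tl n z j = z j.succ := rfl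

lemma cs_zero {n : ℕ} (y : EE n) : cs n y 0 = 0 := rfl

lemma cs_succ {n : ℕ} (y : EE n) (j : Fin n) : cs n y j.succ = y j := rfl

lemma tl_cs {n : ℕ} (y : EE n) : tl n (cs n y) = y := by
  ext j
  rw [tl_apply, cs_succ]

lemma inner_tl {n : ℕ} (z : EE (n + 1)) (y : EE n) :
    inner ℝ (tl n z) y = inner ℝ z (cs n y) := by
  rw [PiLp.inner_apply, PiLp.inner_apply, Fin.sum_univ_succ, cs_zero]
  simp only [cs_succ, tl_apply]
  simp

lemma dt_cons {n : ℕ} (x : Fin n → EE (n + 1)) :
    dt (Fin.cons (EuclideanSpace.single 0 1) x : Fin (n + 1) → EE (n + 1)) =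
      dt (fun k => tl n (x k)) := by
  unfold dt
  rw [Matrix.det_succ_row_zero, Finset.sum_eq_single (0 : Fin (n + 1))]
  · have h0 : (Matrix.of fun k j =>
        (Fin.cons (EuclideanSpace.single 0 1) x : Fin (n + 1) → EE (n + 1)) k j) 0 0 = (1 : ℝ) := by
      simp
    rw [h0]
    simp only [Fin.val_zero, pow_zero, one_mul]
    congr 1
  · intro j _ hj
    have h0 : (Matrix.of fun k j =>
        (Fin.cons (EuclideanSpace.single 0 1) x : Fin (n + 1) → EE (n + 1)) k j) 0 j = (0 : ℝ) := by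
      simp [hj]
    rw [h0]
    ring
  · intro h
    exact absurd (Finset.mem_univ _) h

end ROT_

open ROT_ in
theorem rot_proof : Stmt_ROT := by
  intro n y hy
  have hpos : 0 < ‖y‖ := norm_pos_iff.mpr hy
  set e : EE (n + 1) := EuclideanSpace.single 0 1 with he
  have he1 : ‖e‖ = 1 := by
    rw [he, EuclideanSpace.norm_single]; simp
  set u : EE (n + 1) := ‖y‖⁻¹ • y with hu
  have hu1 : ‖u‖ = 1 := by
    rw [hu, norm_smul, norm_inv, norm_norm, inv_mul_cancel₀ hpos.ne']
  have hy0 : y = ‖y‖ • u := by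
    rw [hu, smul_smul, mul_inv_cancel₀ hpos.ne', one_smul]
  let O : EE (n + 1) ≃ₗᵢ[ℝ] EE (n + 1) := (ℝ ∙ (u - e))ᗮ.reflection
  have hO : O u = e := Submodule.reflection_sub (hu1.trans he1.symm)
  have hOO : ∀ z, O (O z) = z := fun z => Submodule.reflection_reflection _ z
  let A : EE (n + 1) →L[ℝ] EE n :=
    LinearMap.toContinuousLinearMap (tl n ∘ₗ O.toLinearEquiv.toLinearMap)
  let B : EE n →L[ℝ] EE (n + 1) :=
    LinearMap.toContinuousLinearMap (O.toLinearEquiv.toLinearMap ∘ₗ cs n)
  have hA : ∀ z, A z = tl n (O z) := fun z => rfl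
  have hB : ∀ z, B z = O (cs n z) := fun z => rfl
  have hAB : A = ContinuousLinearMap.adjoint B := by
    rw [ContinuousLinearMap.eq_adjoint_iff]
    intro x z
    rw [hA, hB, inner_tl, ← O.inner_map_map x (O (cs n z)), hOO]
  refine ⟨A, ?_, fun z => ?_⟩
  · have hadj : ContinuousLinearMap.adjoint A = B := by
      rw [hAB, ContinuousLinearMap.adjoint_adjoint]
    unfold Coi
    rw [hadj]
    ext z : 1
    rw [ContinuousLinearMap.comp_apply, hA, hB, hOO, tl_cs]
    rfl
  · have h1 : dt (Fin.cons y z : Fin (n + 1) → EE (n + 1)) =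
        ‖y‖ * dt (Fin.cons u z : Fin (n + 1) → EE (n + 1)) := by
      conv_lhs => rw [hy0]
      rw [dt_cons_smul]
    have h2 : dt (Fin.cons u z : Fin (n + 1) → EE (n + 1)) ^ 2 =
        dt (fun k => A (z k)) ^ 2 := by
      rw [← dt_iso O (Fin.cons u z : Fin (n + 1) → EE (n + 1))]
      have h3 : (fun k => O ((Fin.cons u z : Fin (n + 1) → EE (n + 1)) k)) =
          (Fin.cons e (fun k => O (z k)) : Fin (n + 1) → EE (n + 1)) := by
        funext k
        refine Fin.cases ?_ (fun i => ?_) k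
        · simp only [Fin.cons_zero]; exact hO
        · simp only [Fin.cons_succ]
      rw [h3, dt_cons]
      rfl
    rw [← sq_eq_sq₀ (abs_nonneg _) (by positivity), sq_abs, mul_pow, sq_abs, h1, mul_pow, h2]

end PPF
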