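import Pool.Agent.PPF.Stmts

/-!
# PPF/TR2: the truncation argument for the barycentres
-/

set_option autoImplicit false

namespace PPF

open MeasureTheory Set Filter Topology
open PPI

namespace TR2_

theorem pw (a b : ℝ) (θ : ℝ) (q : ℕ) (hq : 1 ≤ q) (hθ : 0 < θ) (hb : |b| ≤ 1) :
    a * b ≤ θ * |b| + θ / θ ^ (2 * q) * a ^ (2 * q) := by
  have h0 : a * b ≤ |a| * |b| := by
    rw [← abs_mul]; exact le_abs_self _
  have h1 : 0 ≤ θ / θ ^ (2 * q) * a ^ (2 * q) := by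
    have : 0 ≤ a ^ (2 * q) := by rw [pow_mul]; positivity
    positivity
  have h2 : 0 ≤ θ * |b| := by positivity
  rcases le_total |a| θ with h | h
  · have h3 : |a| * |b| ≤ θ * |b| := mul_le_mul_of_nonneg_right h (abs_nonneg b)
    linarith
  · have h3 : |a| * |b| ≤ |a| := mul_le_of_le_one_right (abs_nonneg a) hb
    have h4 : 1 ≤ |a| / θ := by rw [le_div_iff₀ hθ]; linarith
    have h5 : |a| / θ ≤ (|a| / θ) ^ (2 * q) := le_self_pow₀ h4 (by omega)
    have h6 : |a| = θ * (|a| / θ) := by field_simp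
    have h7 : θ * (|a| / θ) ^ (2 * q) = θ / θ ^ (2 * q) * a ^ (2 * q) := by
      rw [div_pow, pow_mul |a| 2 q, sq_abs, ← pow_mul]; ring
    have h8 : θ * (|a| / θ) ≤ θ * (|a| / θ) ^ (2 * q) := mul_le_mul_of_nonneg_left h5 hθ.le
    rw [← h6, h7] at h8
    linarith

end TR2_

open TR2_ in
theorem tr2_proof (h1 : Stmt_CB2) (h2 : PPI.Stmt_DTL) (h3 : PPI.Stmt_XLB) : Stmt_TR2 := by
  intro n q ι _ p w c W θ hn hq hNF hθ hmom
  classical
  have hn0 : (0 : ℝ) < n := by exact_mod_cast hn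
  have hfac : ((n.factorial : ℕ) : ℝ) ≠ 0 := by
    exact_mod_cast n.factorial_ne_zero
  have hdet := h1 n ι p c w
  rw [hdet, mul_div_cancel₀ _ hfac]
  have hpn : ∀ f : Fin n → ι, 0 ≤ ∏ k, p (f k) := fun f =>
    Finset.prod_nonneg fun k _ => (hNF.ppos (f k)).le
  have hw1 : ∀ f : Fin n → ι, |dt (fun k => w (f k))| ≤ 1 := fun f =>
    h2 n _ fun k => hNF.wl1 (f k)
  have hstep : ∑ f : Fin n → ι, (∏ k, p (f k)) *
      (dt (fun k => c (f k)) * dt (fun k => w (f k))) ≤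
      θ * XT p w + θ / θ ^ (2 * q) * DM q p c := by
    unfold XT DM
    rw [Finset.mul_sum, Finset.mul_sum, ← Finset.sum_add_distrib]
    refine Finset.sum_le_sum fun f _ => ?_
    have h6 := pw (dt (fun k => c (f k))) (dt (fun k => w (f k))) θ q hq hθ (hw1 f)
    have h7 := mul_le_mul_of_nonneg_left h6 (hpn f)
    linarith
  have hX : 1 ≤ (n : ℝ) ^ n * XT p w := h3 n ι p w hNF.ppos hNF.au
  have hθq : 0 < θ ^ (2 * q) := by positivity
  have hnn : 0 < (n : ℝ) ^ n := by positivity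
  have h6 : DM q p c ≤ θ ^ (2 * q) * XT p w := by
    have h7 : DM q p c * (n : ℝ) ^ n ≤ θ ^ (2 * q) * ((n : ℝ) ^ n * XT p w) := by
      have := mul_le_mul_of_nonneg_left hX hθq.le
      linarith
    have h8 : DM q p c * (n : ℝ) ^ n ≤ (θ ^ (2 * q) * XT p w) * (n : ℝ) ^ n := by
      linarith
    exact le_of_mul_le_mul_right h8 hnn
  have h9 : θ / θ ^ (2 * q) * DM q p c ≤ θ / θ ^ (2 * q) * (θ ^ (2 * q) * XT p w) :=
    mul_le_mul_of_nonneg_left h6 (by positivity)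
  have h10 : θ / θ ^ (2 * q) * (θ ^ (2 * q) * XT p w) = θ * XT p w := by
    field_simp
  linarith

end PPF
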