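import Pool.Agent.PPI.Final
import Pool.Agent.PPF.CB2
import Pool.Agent.PPF.ROT
import Pool.Agent.PPF.DMO
import Pool.Agent.PPF.TR2
import Pool.Agent.PPF.GMC
import Pool.Agent.PPF.JEN
import Pool.Agent.PPF.CAP
import Pool.Agent.PPF.CBD
import Pool.Agent.PPF.BMG
import Pool.Agent.PPF.BMR
import Pool.Agent.PPF.BMO
import Pool.Agent.PPF.MOC
import Pool.Agent.PPF.GE2
import Pool.Agent.PPF.RE2
import Pool.Agent.PPF.POL
import Pool.Agent.PPF.NUC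
import Pool.Agent.PPF.NUD
import Pool.Agent.PPF.NFP
import Pool.Agent.PPF.PTP
import Pool.Agent.PPF.NUE
import Pool.Agent.PPF.FIN

/-!
# Squad PPF (MP_0bf616_gt): assembly
-/

set_option autoImplicit false

namespace PPF

theorem t_CB2 : Stmt_CB2 := cb2_proof
theorem t_ROT : Stmt_ROT := rot_proof
theorem t_DMO : Stmt_DMO := dmo_proof t_ROT
theorem t_TR2 : Stmt_TR2 := tr2_proof t_CB2 PPI.t_DTL PPI.t_XLB
theorem t_GMC : Stmt_GMC := gmc_proof PPI.t_AVE PPI.t_LSE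
theorem t_JEN : Stmt_JEN := jen_proof PPI.t_AVE PPI.t_LSE
theorem t_CAP : Stmt_CAP := cap_proof
theorem t_CBD : Stmt_CBD := cbd_proof t_CAP PPI.t_AVE PPI.t_LSE
theorem t_BMG : Stmt_BMG := bmg_proof
theorem t_BMR : Stmt_BMR := bmr_proof
theorem t_BMO : Stmt_BMO := bmo_proof t_BMG t_BMR PPI.t_MGA PPI.t_MCC PPI.t_AVE
theorem t_MOC : Stmt_MOC := moc_proof t_DMO t_JEN t_BMO t_CBD
theorem t_GE2 : Stmt_GE2 := ge2_proof PPI.t_CEL PPI.t_MKI PPI.t_PRJ PPI.t_ZON PPI.t_MON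
theorem t_RE2 : Stmt_RE2 := re2_proof PPI.t_SPN PPI.t_AUE PPI.t_TRX PPI.t_TRM
theorem t_POL : Stmt_POL := pol_proof
theorem t_NUC : Stmt_NUC := nuc_proof
theorem t_NUD : Stmt_NUD := nud_proof
theorem t_NFP : Stmt_NFP :=
  nfp_proof PPI.t_AVE PPI.t_PEX PPI.t_FOC PPI.t_PLA PPI.t_LEV t_GMC t_TR2 t_MOC
theorem t_PTP : Stmt_PTP := ptp_proof PPI.t_AVE t_NFP t_GE2 t_RE2
theorem t_NUE : Stmt_NUE := nue_proof t_NUC t_NUD
theorem t_FIN : Stmt_FIN := fin_proof PPI.t_MON PPI.t_NUA PPI.t_AVE t_PTP t_POL t_NUE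

end PPF
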