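import Pool.Agent.PPF.Stmts

set_option autoImplicit false

namespace PPF

open MeasureTheory Set Filter Topology
open PPI

namespace NUC_

theorem prod_fac (a n : ℕ) :
    (∏ j ∈ Finset.range n, ((j : ℝ) + 1 + a)) * (a.factorial : ℝ) = ((n + a).factorial : ℝ) := by
  induction n with
  | zero => simp
  | succ n ih =>
    rw [Finset.prod_range_succ, mul_right_comm, ih]
    have : n + 1 + a = (n + a) + 1 := by ring
    rw [this, Nat.factorial_succ]
    push_cast
    ring

/-- the factor -/
noncomputable def hh (R : ℝ) (n : ℕ) (x : ℝ) : ℝ := min 1 (R * n / x)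

theorem hh_nonneg {R : ℝ} {n : ℕ} {x : ℝ} (hR : 0 < R) (hx : 0 < x) : 0 ≤ hh R n x :=
  le_min zero_le_one (div_nonneg (mul_nonneg hR.le (Nat.cast_nonneg n)) hx.le)

theorem factor {R : ℝ} {n : ℕ} {x y : ℝ} (hn : 0 < n) (hx : 0 < x) (hy : 0 < y) :
    (n : ℝ) / y * min R (x / n) = x / y * hh R n x := by
  have hn' : (0 : ℝ) < n := by exact_mod_cast hn
  unfold hh
  rcases le_total R (x / n) with h | h
  · rw [min_eq_left h]
    have h2 : R * n / x ≤ 1 := by
      rw [div_le_one hx]
      rwa [le_div_iff₀ hn'] at h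
    rw [min_eq_right h2]
    field_simp
  · rw [min_eq_right h]
    have h2 : 1 ≤ R * n / x := by
      rw [le_div_iff₀ hx, one_mul]
      rwa [div_le_iff₀ hn'] at h
    rw [min_eq_left h2]
    field_simp

end NUC_

open NUC_ in
theorem nuc_proof : Stmt_NUC := by
  intro n q R hn hq hR hR1 hqR
  have hn' : (0 : ℝ) < n := by exact_mod_cast hn
  have hRn : R * n ≤ n := by nlinarith
  have h2q : 2 * q + 1 ≤ n := by
    have : (2 * (q : ℝ) + 1) ≤ n := hqR.trans hRn
    exact_mod_cast this
  -- left side as a product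
  have e1 : (n : ℝ) ^ n / n.factorial *
      ∏ j ∈ Finset.range n, min R (((j : ℝ) + 1 + 2 * q) / n) =
      (∏ j ∈ Finset.range n, (((j : ℝ) + 1 + 2 * q) / ((j : ℝ) + 1))) *
        ∏ j ∈ Finset.range n, hh R n ((j : ℝ) + 1 + 2 * q) := by
    have hf : (n.factorial : ℝ) = ∏ j ∈ Finset.range n, ((j : ℝ) + 1) := by
      have := prod_fac 0 n
      simp only [Nat.cast_zero, add_zero, Nat.factorial_zero, Nat.cast_one, mul_one] at this
      exact this.symm
    have hp : (n : ℝ) ^ n = ∏ _j ∈ Finset.range n, (n : ℝ) := by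
      rw [Finset.prod_const, Finset.card_range]
    rw [hf, hp, ← Finset.prod_div_distrib, ← Finset.prod_mul_distrib, ← Finset.prod_mul_distrib]
    apply Finset.prod_congr rfl
    intro j _
    have hj : (0 : ℝ) ≤ j := Nat.cast_nonneg j
    have hq0 : (0 : ℝ) ≤ q := Nat.cast_nonneg q
    exact factor (by omega) (by linarith) (by linarith)
  have e2 : (∏ j ∈ Finset.range n, (((j : ℝ) + 1 + 2 * q) / ((j : ℝ) + 1))) =
      ((n + 2 * q).factorial : ℝ) / (((2 * q).factorial : ℝ) * (n.factorial : ℝ)) := by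
    rw [Finset.prod_div_distrib]
    have a1 := prod_fac (2 * q) n
    have a2 := prod_fac 0 n
    simp only [Nat.cast_zero, add_zero, Nat.factorial_zero, Nat.cast_one, mul_one] at a2
    push_cast at a1
    rw [a2, ← a1]
    have f1 : ((2 * q).factorial : ℝ) ≠ 0 := by exact_mod_cast (2 * q).factorial_ne_zero
    have f2 : (n.factorial : ℝ) ≠ 0 := by exact_mod_cast n.factorial_ne_zero
    field_simp
  obtain ⟨m, hm⟩ : ∃ m, n = m + 2 * q := ⟨n - 2 * q, by omega⟩
  have e3 : ∏ j ∈ Finset.range n, hh R n ((j : ℝ) + 1 + 2 * q) =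
      (∏ j ∈ Finset.range m, hh R n ((j : ℝ) + 1 + 2 * q)) *
        ∏ x ∈ Finset.range (2 * q), hh R n ((n : ℝ) + 1 + x) := by
    have : Finset.range n = Finset.range (m + 2 * q) := by rw [hm]
    rw [this, Finset.prod_range_add]
    congr 1
    apply Finset.prod_congr rfl
    intro x _
    congr 1
    rw [hm]
    push_cast
    ring
  have e4 : ∏ x ∈ Finset.range (2 * q), hh R n ((n : ℝ) + 1 + x) ≤
      (n : ℝ) ^ (2 * q) * (n.factorial : ℝ) / ((n + 2 * q).factorial : ℝ) := by
    calc ∏ x ∈ Finset.range (2 * q), hh R n ((n : ℝ) + 1 + x)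
        ≤ ∏ x ∈ Finset.range (2 * q), ((n : ℝ) / ((x : ℝ) + 1 + n)) := by
          apply Finset.prod_le_prod
          · intro x _
            have hx : (0 : ℝ) ≤ x := Nat.cast_nonneg x
            exact hh_nonneg hR (by linarith)
          · intro x _
            have hx : (0 : ℝ) ≤ x := Nat.cast_nonneg x
            refine (min_le_right _ _).trans ?_
            have : (n : ℝ) + 1 + x = (x : ℝ) + 1 + n := by ring
            rw [this]
            exact div_le_div_of_nonneg_right hRn (by linarith)
      _ = (n : ℝ) ^ (2 * q) * (n.factorial : ℝ) / ((n + 2 * q).factorial : ℝ) := by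
          rw [Finset.prod_div_distrib, Finset.prod_const, Finset.card_range]
          have a1 := prod_fac n (2 * q)
          have f2 : (n.factorial : ℝ) ≠ 0 := by exact_mod_cast n.factorial_ne_zero
          have hc : 2 * q + n = n + 2 * q := by ring
          rw [hc] at a1
          rw [← a1]
          have f3 : (∏ j ∈ Finset.range (2 * q), ((j : ℝ) + 1 + n)) ≠ 0 := by
            apply Finset.prod_ne_zero_iff.2
            intro x _
            have hx : (0 : ℝ) ≤ x := Nat.cast_nonneg x
            exact (by linarith : (0 : ℝ) < (x : ℝ) + 1 + n).ne'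
          field_simp
  -- the main part
  have e5 : ∏ j ∈ Finset.range m, hh R n ((j : ℝ) + 1 + 2 * q) ≤
      Real.exp (-((1 - R) ^ 2 * n / 4)) := by
    set c : ℝ := (1 - R) / 2 with hc
    have hc0 : 0 ≤ c := by rw [hc]; linarith
    set s : ℕ := ⌈(1 + R) * n / 2⌉₊ with hs
    have hs1 : (1 + R) * n / 2 ≤ s := Nat.le_ceil _
    have hs2 : (s : ℝ) < (1 + R) * n / 2 + 1 := Nat.ceil_lt_add_one (by positivity)
    have hsn : s ≤ n := by
      rw [hs]
      apply Nat.ceil_le.2
      nlinarith
    have hsq : 2 * q + 1 ≤ s := by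
      have : (2 * (q : ℝ) + 1) ≤ s := by nlinarith
      exact_mod_cast this
    obtain ⟨j0, hj0⟩ : ∃ j0, s = j0 + (2 * q + 1) := ⟨s - (2 * q + 1), by omega⟩
    obtain ⟨m', hm'⟩ : ∃ m', m = j0 + m' := ⟨m - j0, by omega⟩
    have hcount : (m' : ℝ) = n + 1 - s := by
      have : m' + s = n + 1 := by omega
      have h2 : (m' : ℝ) + s = n + 1 := by exact_mod_cast this
      linarith
    have g1 : ∏ j ∈ Finset.range j0, hh R n ((j : ℝ) + 1 + 2 * q) ≤ 1 := by
      apply Finset.prod_le_one
      · intro j _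
        have hj : (0 : ℝ) ≤ j := Nat.cast_nonneg j
        have hq0 : (0 : ℝ) ≤ q := Nat.cast_nonneg q
        exact hh_nonneg hR (by linarith)
      · intro j _
        exact min_le_left _ _
    have g2 : ∏ x ∈ Finset.range m', hh R n (((j0 + x : ℕ) : ℝ) + 1 + 2 * q) ≤
        Real.exp (-c) ^ m' := by
      calc ∏ x ∈ Finset.range m', hh R n (((j0 + x : ℕ) : ℝ) + 1 + 2 * q)
          ≤ ∏ _x ∈ Finset.range m', Real.exp (-c) := by
            apply Finset.prod_le_prod
            · intro x _
              have hj : (0 : ℝ) ≤ ((j0 + x : ℕ) : ℝ) := Nat.cast_nonneg _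
              have hq0 : (0 : ℝ) ≤ q := Nat.cast_nonneg q
              exact hh_nonneg hR (by linarith)
            · intro x _
              refine (min_le_right _ _).trans ?_
              have hx : (0 : ℝ) ≤ x := Nat.cast_nonneg x
              have hbig : (1 + R) * n / 2 ≤ ((j0 + x : ℕ) : ℝ) + 1 + 2 * q := by
                have : (s : ℝ) = j0 + (2 * q + 1) := by exact_mod_cast hj0
                push_cast
                linarith
              have hpos : 0 < (1 + R) * n / 2 := by positivity
              calc R * n / (((j0 + x : ℕ) : ℝ) + 1 + 2 * q)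
                  ≤ R * n / ((1 + R) * n / 2) :=
                    div_le_div_of_nonneg_left (by positivity) hpos hbig
                _ = 2 * R / (1 + R) := by field_simp
                _ ≤ -c + 1 := by
                    rw [div_le_iff₀ (by linarith)]
                    rw [hc]
                    nlinarith
                _ ≤ Real.exp (-c) := Real.add_one_le_exp (-c)
        _ = Real.exp (-c) ^ m' := by rw [Finset.prod_const, Finset.card_range]
    have g3 : Real.exp (-c) ^ m' ≤ Real.exp (-((1 - R) ^ 2 * n / 4)) := by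
      rw [← Real.exp_nat_mul]
      apply Real.exp_le_exp.2
      have : (1 - R) * n / 2 ≤ (m' : ℝ) := by
        rw [hcount]
        nlinarith
      have h4 : c * ((1 - R) * n / 2) ≤ c * m' := mul_le_mul_of_nonneg_left this hc0
      have h5 : c * ((1 - R) * n / 2) = (1 - R) ^ 2 * n / 4 := by
        rw [hc]
        ring
      linarith
    rw [hm', Finset.prod_range_add]
    calc (∏ j ∈ Finset.range j0, hh R n ((j : ℝ) + 1 + 2 * q)) *
          ∏ x ∈ Finset.range m', hh R n (((j0 + x : ℕ) : ℝ) + 1 + 2 * q)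
        ≤ 1 * Real.exp (-c) ^ m' := by
          apply mul_le_mul g1 g2 _ zero_le_one
          apply Finset.prod_nonneg
          intro x _
          have hj : (0 : ℝ) ≤ ((j0 + x : ℕ) : ℝ) := Nat.cast_nonneg _
          have hq0 : (0 : ℝ) ≤ q := Nat.cast_nonneg q
          exact hh_nonneg hR (by linarith)
      _ ≤ _ := by rw [one_mul]; exact g3
  rw [e1, e2, e3]
  have hA0 : 0 ≤ ∏ j ∈ Finset.range m, hh R n ((j : ℝ) + 1 + 2 * q) := by
    apply Finset.prod_nonneg
    intro j _
    have hj : (0 : ℝ) ≤ j := Nat.cast_nonneg j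
    have hq0 : (0 : ℝ) ≤ q := Nat.cast_nonneg q
    exact hh_nonneg hR (by linarith)
  set A : ℝ := ∏ j ∈ Finset.range m, hh R n ((j : ℝ) + 1 + 2 * q) with hA
  set B : ℝ := ∏ x ∈ Finset.range (2 * q), hh R n ((n : ℝ) + 1 + x) with hB
  have F1 : (0 : ℝ) < ((n + 2 * q).factorial : ℝ) := by exact_mod_cast (n + 2 * q).factorial_pos
  have F2 : (1 : ℝ) ≤ ((2 * q).factorial : ℝ) := by exact_mod_cast (2 * q).factorial_pos
  have F3 : (0 : ℝ) < (n.factorial : ℝ) := by exact_mod_cast n.factorial_pos
  calc ((n + 2 * q).factorial : ℝ) / (((2 * q).factorial : ℝ) * (n.factorial : ℝ)) * (A * B)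
      ≤ ((n + 2 * q).factorial : ℝ) / (((2 * q).factorial : ℝ) * (n.factorial : ℝ)) *
        (A * ((n : ℝ) ^ (2 * q) * (n.factorial : ℝ) / ((n + 2 * q).factorial : ℝ))) := by
        apply mul_le_mul_of_nonneg_left _ (by positivity)
        exact mul_le_mul_of_nonneg_left e4 hA0
    _ = (n : ℝ) ^ (2 * q) * A / ((2 * q).factorial : ℝ) := by
        field_simp
    _ ≤ (n : ℝ) ^ (2 * q) * A := div_le_self (by positivity) F2
    _ ≤ (n : ℝ) ^ (2 * q) * Real.exp (-((1 - R) ^ 2 * n / 4)) :=
        mul_le_mul_of_nonneg_left e5 (by positivity)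

end PPF
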