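import Pool.Agent.PPI.Stmts

/-!
# Squad PPF (MP_0bf616_gt): Petty's projection inequality for polytopes with at most `n^(cn)`
facets.  Statements of the modules.  Recipes: /team-store/MP_0bf616_PPF.md
-/

set_option autoImplicit false

namespace PPF

open MeasureTheory Set Filter Topology
open PPI

noncomputable section

/-- the barycentre of the cell `i` of the coupling: `E (x | i)` -/
def cv {n : ℕ} {ι : Type} [Fintype ι] (ε : ℝ) (p : ι → ℝ) (w : ι → EE n)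
    (T : Matrix (Fin n) (Fin n) ℝ) (b : ι → ℝ) (i : ι) : EE n :=
  WithLp.toLp 2 fun k => ave (fun x : EE n => ws ε w T b x i * x k) / p i

/-- coisometries: `A A* = 1` -/
def Coi {n j : ℕ} (A : EE n →L[ℝ] EE j) : Prop :=
  A.comp (ContinuousLinearMap.adjoint A) = ContinuousLinearMap.id ℝ (EE j)

/-- `∑ ∏ p · det(c)^(2q)` over all `n`-tuples -/
def DM {n : ℕ} {ι : Type} [Fintype ι] (q : ℕ) (p : ι → ℝ) (c : ι → EE n) : ℝ :=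
  ∑ f : Fin n → ι, (∏ k, p (f k)) * dt (fun k => c (f k)) ^ (2 * q)

/-- the bound for the moments of the determinant, `r` = bound for the moments of the norm -/
def MB (n q : ℕ) (r : ℝ) : ℝ :=
  ∏ j ∈ Finset.range n, min r ((((j : ℝ) + 1 + 2 * q) / n) ^ q)

/-- the bound for the moments of the norm: `N` cells, cells of mass at least `p₀` have a
barycentre of norm at most `τ + √(1-τ²)^n / p₀` -/
def RB (n q N : ℕ) (τ p₀ : ℝ) : ℝ := (τ + √(1 - τ ^ 2) ^ n / p₀) ^ (2 * q) + N * p₀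

/-! ## A. Linear algebra -/

/-- Cauchy-Binet for two families -/
def Stmt_CB2 : Prop :=
  ∀ (n : ℕ) (ι : Type) [Fintype ι] (α : ι → ℝ) (u v : ι → EE n),
    Matrix.det (Matrix.of fun j l : Fin n => ∑ i, α i * (u i j * v i l)) =
      (∑ f : Fin n → ι, (∏ k, α (f k)) *
        (dt (fun k => u (f k)) * dt (fun k => v (f k)))) / n.factorial

/-- the first row is rotated away -/
def Stmt_ROT : Prop :=
  ∀ (n : ℕ) (y : EE (n + 1)), y ≠ 0 → ∃ A : EE (n + 1) →L[ℝ] EE n, Coi A ∧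
    ∀ z : Fin n → EE (n + 1),
      |dt (Fin.cons y z : Fin (n + 1) → EE (n + 1))| = ‖y‖ * |dt (fun k => A (z k))|

/-- moments of the determinant of independent rows. Uses ROT -/
def Stmt_DMO : Prop :=
  ∀ (n q : ℕ) (ι : Type) [Fintype ι] (p : ι → ℝ) (c : ι → EE n) (M : ℕ → ℝ), 1 ≤ q →
    (∀ i, 0 ≤ p i) → (∀ j, 0 ≤ M j) →
    (∀ j, 1 ≤ j → j ≤ n → ∀ A : EE n →L[ℝ] EE j, Coi A →
      ∑ i, p i * ‖A (c i)‖ ^ (2 * q) ≤ M j) →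
    DM q p c ≤ ∏ j ∈ Finset.range n, M (j + 1)

/-- truncation. Uses CB2, PPI.DTL, PPI.XLB -/
def Stmt_TR2 : Prop :=
  ∀ (n q : ℕ) (ι : Type) [Fintype ι] (p : ι → ℝ) (w c : ι → EE n) (W θ : ℝ), 1 ≤ n → 1 ≤ q →
    NF p w W → 0 < θ → DM q p c * (n : ℝ) ^ n ≤ θ ^ (2 * q) →
    (n.factorial : ℝ) *
      Matrix.det (Matrix.of fun j l : Fin n => ∑ i, p i * (c i j * w i l)) ≤ 2 * θ * XT p w

/-! ## B. The barycentres of the cells -/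

/-- the matrix `Gm` in terms of the barycentres. Uses PPI.AVE, PPI.LSE -/
def Stmt_GMC : Prop :=
  ∀ (n : ℕ) (ι : Type) [Fintype ι] [Nonempty ι] (ε : ℝ) (p : ι → ℝ) (w : ι → EE n)
    (T : Matrix (Fin n) (Fin n) ℝ) (b : ι → ℝ), 1 ≤ n → 0 < ε → (∀ i, 0 < p i) →
    Gm ε w T b = Matrix.of fun j l : Fin n => ∑ i, p i * (cv ε p w T b i j * w i l)

/-- Jensen's inequality. Uses PPI.AVE, PPI.LSE -/
def Stmt_JEN : Prop :=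
  ∀ (n j q : ℕ) (ι : Type) [Fintype ι] [Nonempty ι] (ε : ℝ) (p : ι → ℝ) (w : ι → EE n)
    (T : Matrix (Fin n) (Fin n) ℝ) (b : ι → ℝ) (A : EE n →L[ℝ] EE j), 1 ≤ n → 1 ≤ q → 0 < ε →
    (∀ i, 0 < p i) → (∀ i, ave (fun x => ws ε w T b x i) = p i) →
    ∑ i, p i * ‖A (cv ε p w T b i)‖ ^ (2 * q) ≤ ave (fun x => ‖A x‖ ^ (2 * q))

/-- volume of a cap -/
def Stmt_CAP : Prop :=
  ∀ (n : ℕ) (y : EE n) (τ : ℝ), 1 ≤ n → ‖y‖ = 1 → 0 ≤ τ → τ ≤ 1 →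
    vl {x : EE n | x ∈ Bn n ∧ τ ≤ inner ℝ x y} ≤ √(1 - τ ^ 2) ^ n * kap n

/-- the barycentre of a cell which is not too small. Uses CAP, PPI.AVE, PPI.LSE -/
def Stmt_CBD : Prop :=
  ∀ (n : ℕ) (ι : Type) [Fintype ι] [Nonempty ι] (ε : ℝ) (p : ι → ℝ) (w : ι → EE n)
    (T : Matrix (Fin n) (Fin n) ℝ) (b : ι → ℝ) (τ : ℝ) (i : ι), 1 ≤ n → 0 < ε →
    (∀ i, 0 < p i) → (∀ i, ave (fun x => ws ε w T b x i) = p i) → 0 ≤ τ → τ ≤ 1 →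
    ‖cv ε p w T b i‖ ≤ 1 ∧ ‖cv ε p w T b i‖ ≤ τ + √(1 - τ ^ 2) ^ n / p i

/-! ## C. Moments of projections of the ball -/

/-- Gaussian moments of a coisometry -/
def Stmt_BMG : Prop :=
  ∀ (n j q : ℕ) (A : EE n →L[ℝ] EE j), j ≤ n → Coi A →
    ∫ x : EE n, ‖A x‖ ^ (2 * q) * Real.exp (-(‖x‖ ^ 2 / 2)) =
      √(2 * Real.pi) ^ (n - j) * ga j q

/-- from the Gaussian measure to the ball -/
def Stmt_BMR : Prop :=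
  ∀ (n j q : ℕ) (A : EE n →L[ℝ] EE j), 1 ≤ n →
    ∫ x : EE n, ‖A x‖ ^ (2 * q) * Real.exp (-(‖x‖ ^ 2 / 2)) =
      cc n q * ∫ x in Bn n, ‖A x‖ ^ (2 * q)

/-- moments for the ball. Uses BMG, BMR, PPI.MGA, PPI.MCC, PPI.AVE -/
def Stmt_BMO : Prop :=
  ∀ (n j q : ℕ) (A : EE n →L[ℝ] EE j), 1 ≤ j → j ≤ n → Coi A →
    ave (fun x => ‖A x‖ ^ (2 * q)) ≤ (((j : ℝ) + 2 * q) / n) ^ q

/-- the moments of the determinant of the barycentres. Uses DMO, JEN, BMO, CBD -/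
def Stmt_MOC : Prop :=
  ∀ (n q : ℕ) (ι : Type) [Fintype ι] [Nonempty ι] (ε : ℝ) (p : ι → ℝ) (w : ι → EE n)
    (T : Matrix (Fin n) (Fin n) ℝ) (b : ι → ℝ) (τ p₀ : ℝ), 1 ≤ n → 1 ≤ q → 0 < ε →
    (∀ i, 0 < p i) → ∑ i, p i = 1 → (∀ i, ave (fun x => ws ε w T b x i) = p i) →
    0 ≤ τ → τ ≤ 1 → 0 < p₀ →
    DM q p (cv ε p w T b) ≤ MB n q (RB n q (Fintype.card ι) τ p₀)

/-! ## D. Assembly -/

/-- `PPI.Stmt_GEO` with the number of facets. Uses PPI.CEL, PPI.MKI, PPI.PRJ, PPI.ZON, PPI.MON -/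
def Stmt_GE2 : Prop :=
  ∀ (n N : ℕ) (v : Fin N → EE n), 2 ≤ n → IsCompact (Pol v) → 0 < vl (Pol v) →
    ∃ (ι : Type) (_ : Fintype ι) (a : ι → ℝ) (w : ι → EE n), Fintype.card ι ≤ N ∧
      MK a w (vl (Pol v) ^ (n - 1)) ∧ XT a w ≤ n.factorial * vl (projBody (Pol v))

/-- `PPI.Stmt_RED` for a fixed index set. Uses PPI.SPN, PPI.AUE, PPI.TRX, PPI.TRM -/
def Stmt_RE2 : Prop :=
  ∀ (n : ℕ) (C : ℝ) (ι : Type) [Fintype ι], 1 ≤ n →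
    (∀ (p : ι → ℝ) (w : ι → EE n) (W : ℝ), NF p w W → 0 < W → W ≤ C * XT p w) →
    ∀ (a : ι → ℝ) (v : ι → EE n) (W : ℝ), MK a v W → 0 < W →
      (2 * n : ℝ) ^ n * W ≤ C * XT a v

/-- the theorem in normal form. Uses PPI.AVE, PPI.PEX, PPI.FOC, PPI.PLA, PPI.LEV, GMC, TR2, MOC -/
def Stmt_NFP : Prop :=
  ∀ (n q : ℕ) (ι : Type) [Fintype ι] (p : ι → ℝ) (w : ι → EE n) (W τ p₀ θ : ℝ), 2 ≤ n → 1 ≤ q →
    NF p w W → 0 < W → 0 ≤ τ → τ ≤ 1 → 0 < p₀ → 0 < θ →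
    MB n q (RB n q (Fintype.card ι) τ p₀) * (n : ℝ) ^ n ≤ θ ^ (2 * q) →
    W * (kap n * n.factorial) ≤ 8 * Real.exp 1 * (n + 1) * θ * (2 * n) ^ n * XT p w

/-- the theorem for polytopes `Pol v`. Uses PPI.AVE, NFP, GE2, RE2 -/
def Stmt_PTP : Prop :=
  ∀ (n q N : ℕ) (v : Fin N → EE n) (τ p₀ θ : ℝ), 2 ≤ n → 1 ≤ q → IsCompact (Pol v) →
    0 < vl (Pol v) → 0 ≤ τ → τ ≤ 1 → 0 < p₀ → 0 < θ →
    MB n q (RB n q N τ p₀) * (n : ℝ) ^ n ≤ θ ^ (2 * q) →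
    kap n * vl (Pol v) ^ (n - 1) ≤ 8 * Real.exp 1 * (n + 1) * θ * vl (projBody (Pol v))

/-- bounded intersections of half-spaces are translates of polytopes `Pol v` -/
def Stmt_POL : Prop :=
  ∀ (n N : ℕ) (v : Fin N → EE n) (b : Fin N → ℝ),
    (interior {x : EE n | ∀ i, inner ℝ (v i) x ≤ b i}).Nonempty →
    ∃ (v' : Fin N → EE n) (z : EE n),
      {x : EE n | ∀ i, inner ℝ (v i) x ≤ b i} = (fun x => x + z) '' Pol v'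

/-! ## E. Constants -/

/-- the product -/
def Stmt_NUC : Prop :=
  ∀ (n q : ℕ) (R : ℝ), 1 ≤ n → 1 ≤ q → 0 < R → R ≤ 1 → 2 * (q : ℝ) + 1 ≤ R * n →
    (n : ℝ) ^ n / n.factorial *
      ∏ j ∈ Finset.range n, min R (((j : ℝ) + 1 + 2 * q) / n) ≤
    (n : ℝ) ^ (2 * q) * Real.exp (-((1 - R) ^ 2 * n / 4))

/-- choice of the parameters, first part. -/
def Stmt_NUD : Prop :=
  ∀ c : ℝ, c < 1 / 8 → ∃ n₀ : ℕ, ∀ n : ℕ, n₀ ≤ n → ∀ N : ℕ, (N : ℝ) ≤ (n : ℝ) ^ (c * n) →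
    ∃ (q : ℕ) (τ p₀ R : ℝ), 1 ≤ q ∧ 0 ≤ τ ∧ τ ≤ 1 ∧ 0 < p₀ ∧ 0 < R ∧ R ≤ 1 ∧
      2 * (q : ℝ) + 1 ≤ R * n ∧ RB n q N τ p₀ ≤ R ^ q ∧
      (64 * Real.exp 3 * ((n : ℝ) + 1) ^ 2 *
        ((n : ℝ) ^ (2 * q) * Real.exp (-((1 - R) ^ 2 * n / 4)))) ^ q * (n : ℝ) ^ n < 1

/-- choice of the parameters. Uses NUC, NUD -/
def Stmt_NUE : Prop :=
  ∀ c : ℝ, c < 1 / 8 → ∃ n₀ : ℕ, ∀ n : ℕ, n₀ ≤ n → ∀ N : ℕ, (N : ℝ) ≤ (n : ℝ) ^ (c * n) →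
    ∃ (q : ℕ) (τ p₀ θ : ℝ), 1 ≤ q ∧ 0 ≤ τ ∧ τ ≤ 1 ∧ 0 < p₀ ∧ 0 < θ ∧
      MB n q (RB n q N τ p₀) * (n : ℝ) ^ n ≤ θ ^ (2 * q) ∧
      √(Real.exp 1) * √((n : ℝ) ^ n / n.factorial) * (8 * Real.exp 1 * (n + 1) * θ) < 1

/-- THE THEOREM. Uses PPI.MON, PPI.NUA, PPI.AVE, PTP, POL, NUE -/
def Stmt_FIN : Prop :=
  ∀ c : ℝ, c < 1 / 8 → ∃ n₀ : ℕ, ∀ n : ℕ, n₀ ≤ n → ∀ (N : ℕ) (v : Fin N → EE n)
    (b : Fin N → ℝ), (N : ℝ) ≤ (n : ℝ) ^ (c * n) →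
    IsCompact {x : EE n | ∀ i, inner ℝ (v i) x ≤ b i} →
    (interior {x : EE n | ∀ i, inner ℝ (v i) x ≤ b i}).Nonempty →
    kap (n - 1) ^ n / kap n ^ (n - 2) * vl {x : EE n | ∀ i, inner ℝ (v i) x ≤ b i} ^ (n - 1) <
      vl (projBody {x : EE n | ∀ i, inner ℝ (v i) x ≤ b i})

end

end PPF
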